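import Mathlib

/-!
Packings of balls with different radii, the average kissing number and the kissing number.
-/

set_option autoImplicit false

open Metric

namespace Pool.Agent.J6H87.AKN

/-- A packing of `N` balls in `d`-dimensional Euclidean space: the closed balls with centres `c i`
and positive radii `r i` have pairwise disjoint interiors. -/
structure Packing (d N : ℕ) where
  /-- the centres -/
  c : Fin N → EuclideanSpace ℝ (Fin d)
  /-- the radii -/
  r : Fin N → ℝ
  /-- the radii are positive -/
  pos : ∀ i, 0 < r i
  /-- the interiors are pairwise disjoint -/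
  disj : ∀ i j, i ≠ j →
    Disjoint (interior (closedBall (c i) (r i))) (interior (closedBall (c j) (r j)))

/-- The contact graph of a packing: the vertices are the balls, and two different balls are joined
when they are tangent, that is, the distance of the centres is the sum of the radii. -/
def Packing.contact {d N : ℕ} (P : Packing d N) : SimpleGraph (Fin N) where
  Adj i j := i ≠ j ∧ dist (P.c i) (P.c j) = P.r i + P.r j
  symm := ⟨fun i j h => ⟨h.1.symm, by rw [dist_comm, h.2, add_comm]⟩⟩
  loopless := ⟨fun i h => h.1 rfl⟩

/-- The average kissing number `2 E / N` of a packing of `N` balls with `E` tangent pairs. -/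
noncomputable def Packing.avg {d N : ℕ} (P : Packing d N) : ℝ :=
  2 * (P.contact.edgeSet.ncard : ℝ) / N

/-- The supremum of the average kissing numbers of the packings of `N ≥ 1` balls in dimension `d`,
as an extended real number. -/
noncomputable def kappa (d : ℕ) : EReal :=
  ⨆ (N : ℕ) (_ : 1 ≤ N) (P : Packing d N), ((P.avg : ℝ) : EReal)

/-- The numbers `m` such that `m` closed unit balls with pairwise disjoint interiors can all touch
the closed unit ball with centre `0` (without overlapping it). -/
def kissSet (d : ℕ) : Set ℕ :=
  {m | ∃ c : Fin m → EuclideanSpace ℝ (Fin d), (∀ i, dist (c i) 0 = 2) ∧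
    ∀ i j, i ≠ j → Disjoint (interior (closedBall (c i) 1)) (interior (closedBall (c j) 1))}

/-- The kissing number in dimension `d`. -/
noncomputable def tau (d : ℕ) : ℕ := sSup (kissSet d)

lemma disj_iff {d : ℕ} (x y : EuclideanSpace ℝ (Fin d)) {a b : ℝ} (ha : 0 < a) (hb : 0 < b) :
    Disjoint (interior (closedBall x a)) (interior (closedBall y b)) ↔ a + b ≤ dist x y := by
  rw [interior_closedBall x ha.ne', interior_closedBall y hb.ne', disjoint_ball_ball_iff ha hb]

lemma dist_sq_eq {d : ℕ} (x y : EuclideanSpace ℝ (Fin d)) :
    dist x y ^ 2 = ∑ i, (x i - y i) * (x i - y i) := by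
  rw [EuclideanSpace.dist_eq, Real.sq_sqrt (Finset.sum_nonneg fun _ _ => sq_nonneg _)]
  refine Finset.sum_congr rfl fun i _ => ?_
  rw [Real.dist_eq, sq_abs, pow_two]

end Pool.Agent.J6H87.AKN
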