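import Mathlib

/-!
Positive definiteness of the zonal (Gegenbauer) polynomials, by the Fischer inner product.
-/

set_option autoImplicit false

open MvPolynomial Finset

namespace Pool.Agent.J6H87.AKN

variable {n : ℕ}

/-- the weight of a monomial in the Fischer product -/
noncomputable def wt (m : Fin n →₀ ℕ) : ℝ := ∏ i, ((m i).factorial : ℝ)

lemma wt_nonneg (m : Fin n →₀ ℕ) : 0 ≤ wt m := Finset.prod_nonneg fun _ _ => by positivity

/-- the Fischer product -/
noncomputable def fis (p q : MvPolynomial (Fin n) ℝ) : ℝ :=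
  ∑ m ∈ p.support, coeff m p * (wt m * coeff m q)

lemma fis_eq_of_subset (p q : MvPolynomial (Fin n) ℝ) (s : Finset (Fin n →₀ ℕ))
    (hs : p.support ⊆ s) : fis p q = ∑ m ∈ s, coeff m p * (wt m * coeff m q) := by
  unfold fis
  refine Finset.sum_subset hs fun m _ hm => ?_
  rw [notMem_support_iff] at hm
  rw [hm, zero_mul]

lemma fis_add_left (p p' q : MvPolynomial (Fin n) ℝ) : fis (p + p') q = fis p q + fis p' q := by
  classical
  rw [fis_eq_of_subset p q (p.support ∪ p'.support) Finset.subset_union_left,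
    fis_eq_of_subset p' q (p.support ∪ p'.support) Finset.subset_union_right,
    fis_eq_of_subset (p + p') q (p.support ∪ p'.support) MvPolynomial.support_add,
    ← Finset.sum_add_distrib]
  exact Finset.sum_congr rfl fun m _ => by rw [coeff_add]; ring

lemma fis_C_mul_left (a : ℝ) (p q : MvPolynomial (Fin n) ℝ) : fis (C a * p) q = a * fis p q := by
  classical
  have hsub : (C a * p).support ⊆ p.support := by
    intro m hm
    rw [mem_support_iff, coeff_C_mul] at hm
    rw [mem_support_iff]
    exact right_ne_zero_of_mul hm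
  rw [fis_eq_of_subset p q p.support subset_rfl, fis_eq_of_subset (C a * p) q p.support hsub,
    Finset.mul_sum]
  exact Finset.sum_congr rfl fun m _ => by rw [coeff_C_mul]; ring

lemma fis_add_right (p q q' : MvPolynomial (Fin n) ℝ) : fis p (q + q') = fis p q + fis p q' := by
  rw [fis_eq_of_subset p q _ subset_rfl, fis_eq_of_subset p q' _ subset_rfl,
    fis_eq_of_subset p _ _ subset_rfl, ← Finset.sum_add_distrib]
  exact Finset.sum_congr rfl fun m _ => by rw [coeff_add]; ring

lemma fis_C_mul_right (a : ℝ) (p q : MvPolynomial (Fin n) ℝ) : fis p (C a * q) = a * fis p q := by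
  rw [fis_eq_of_subset p q _ subset_rfl, fis_eq_of_subset p _ _ subset_rfl, Finset.mul_sum]
  exact Finset.sum_congr rfl fun m _ => by rw [coeff_C_mul]; ring

lemma fis_zero_left (q : MvPolynomial (Fin n) ℝ) : fis 0 q = 0 := by simp [fis]

lemma fis_zero_right (p : MvPolynomial (Fin n) ℝ) : fis p 0 = 0 := by
  rw [fis_eq_of_subset p 0 _ subset_rfl]; simp

lemma fis_sum_left {ι : Type*} (s : Finset ι) (f : ι → MvPolynomial (Fin n) ℝ)
    (q : MvPolynomial (Fin n) ℝ) : fis (∑ i ∈ s, f i) q = ∑ i ∈ s, fis (f i) q := by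
  classical
  induction s using Finset.induction_on with
  | empty => simp [fis_zero_left]
  | insert a s ha ih => rw [Finset.sum_insert ha, Finset.sum_insert ha, fis_add_left, ih]

lemma fis_sum_right {ι : Type*} (s : Finset ι) (f : ι → MvPolynomial (Fin n) ℝ)
    (p : MvPolynomial (Fin n) ℝ) : fis p (∑ i ∈ s, f i) = ∑ i ∈ s, fis p (f i) := by
  classical
  induction s using Finset.induction_on with
  | empty => simp [fis_zero_right]
  | insert a s ha ih => rw [Finset.sum_insert ha, Finset.sum_insert ha, fis_add_right, ih]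

lemma fis_self_nonneg (p : MvPolynomial (Fin n) ℝ) : 0 ≤ fis p p := by
  rw [fis_eq_of_subset p p _ subset_rfl]
  refine Finset.sum_nonneg fun m _ => ?_
  have := wt_nonneg m
  nlinarith [mul_nonneg this (mul_self_nonneg (coeff m p))]

lemma fis_monomial (m : Fin n →₀ ℕ) (c : ℝ) (q : MvPolynomial (Fin n) ℝ) :
    fis (monomial m c) q = c * (wt m * coeff m q) := by
  classical
  rw [fis_eq_of_subset (monomial m c) q {m} support_monomial_subset]
  simp

lemma wt_add_single (m : Fin n →₀ ℕ) (i : Fin n) :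
    wt (m + Finsupp.single i 1) = wt m * (((m i : ℕ) : ℝ) + 1) := by
  classical
  unfold wt
  rw [← Finset.mul_prod_erase Finset.univ _ (Finset.mem_univ i),
    ← Finset.mul_prod_erase Finset.univ (fun j => ((m j).factorial : ℝ)) (Finset.mem_univ i)]
  have h : ∏ j ∈ Finset.univ.erase i, ((((m + Finsupp.single i 1 : Fin n →₀ ℕ)) j).factorial : ℝ) =
      ∏ j ∈ Finset.univ.erase i, ((m j).factorial : ℝ) := by
    refine Finset.prod_congr rfl fun j hj => ?_
    have : j ≠ i := (Finset.mem_erase.1 hj).1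
    simp [this.symm]
  rw [h]
  simp [Nat.factorial_succ]
  ring

/-- adjointness of multiplication and differentiation -/
lemma fis_X_mul (i : Fin n) (p q : MvPolynomial (Fin n) ℝ) :
    fis (X i * p) q = fis p (pderiv i q) := by
  classical
  induction p using MvPolynomial.induction_on' with
  | monomial m c =>
    rw [X, monomial_mul, fis_monomial, fis_monomial, coeff_pderiv, add_comm (Finsupp.single i 1) m,
      wt_add_single]
    ring
  | add p p' hp hp' => rw [mul_add, fis_add_left, fis_add_left, hp, hp']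

/-- the linear form of a vector -/
noncomputable def lin (y : Fin n → ℝ) : MvPolynomial (Fin n) ℝ := ∑ i, C (y i) * X i

/-- the squared norm -/
noncomputable def sq : MvPolynomial (Fin n) ℝ := ∑ i, X i * X i

/-- the Laplace operator -/
noncomputable def lap (p : MvPolynomial (Fin n) ℝ) : MvPolynomial (Fin n) ℝ :=
  ∑ i, pderiv i (pderiv i p)

lemma lap_add (p q : MvPolynomial (Fin n) ℝ) : lap (p + q) = lap p + lap q := by
  simp [lap, Finset.sum_add_distrib]

lemma lap_sum {ι : Type*} (s : Finset ι) (f : ι → MvPolynomial (Fin n) ℝ) :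
    lap (∑ i ∈ s, f i) = ∑ i ∈ s, lap (f i) := by
  simp only [lap, map_sum]
  rw [Finset.sum_comm]

lemma lap_C_mul (a : ℝ) (p : MvPolynomial (Fin n) ℝ) : lap (C a * p) = C a * lap p := by
  simp only [lap, pderiv_C_mul, Finset.mul_sum]

lemma fis_sq_mul (p q : MvPolynomial (Fin n) ℝ) : fis (sq * p) q = fis p (lap q) := by
  unfold sq lap
  rw [Finset.sum_mul, fis_sum_left, fis_sum_right]
  refine Finset.sum_congr rfl fun i _ => ?_
  rw [mul_assoc, fis_X_mul, fis_X_mul]

lemma fis_lin_mul (y : Fin n → ℝ) (p q : MvPolynomial (Fin n) ℝ) :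
    fis (lin y * p) q = fis p (∑ i, C (y i) * pderiv i q) := by
  unfold lin
  rw [Finset.sum_mul, fis_sum_left, fis_sum_right]
  refine Finset.sum_congr rfl fun i _ => ?_
  rw [mul_assoc, fis_C_mul_left, fis_X_mul, fis_C_mul_right]

lemma fis_one (q : MvPolynomial (Fin n) ℝ) : fis 1 q = coeff 0 q := by
  have h : (1 : MvPolynomial (Fin n) ℝ) = monomial 0 1 := rfl
  rw [h, fis_monomial]
  simp [wt]

/-- evaluation by the Fischer product -/
lemma fis_lin_pow (y : Fin n → ℝ) (k : ℕ) : ∀ q : MvPolynomial (Fin n) ℝ, q.IsHomogeneous k →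
    fis (lin y ^ k) q = (k.factorial : ℝ) * eval y q := by
  induction k with
  | zero =>
    intro q hq
    rw [pow_zero, fis_one]
    have h0 : q = C (coeff 0 q) := by
      rw [← totalDegree_eq_zero_iff_eq_C]
      exact (totalDegree_zero_iff_isHomogeneous (Fin n)).2 hq
    conv_rhs => rw [h0]
    simp
  | succ k ih =>
    intro q hq
    rw [pow_succ', fis_lin_mul]
    have hhom : (∑ i, C (y i) * pderiv i q).IsHomogeneous k := by
      refine IsHomogeneous.sum _ _ _ fun i _ => ?_
      have h := hq.pderiv (i := i)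
      simpa using (isHomogeneous_C (Fin n) (y i)).mul h
    rw [ih _ hhom]
    have he := congrArg (eval y) hq.sum_X_mul_pderiv
    simp only [map_sum, map_mul, eval_X, nsmul_eq_mul, map_natCast, Nat.cast_add, Nat.cast_one,
      map_add, map_one] at he
    simp only [map_sum, map_mul, eval_C]
    rw [he, Nat.factorial_succ]
    push_cast
    ring

lemma pderiv_lin (y : Fin n → ℝ) (i : Fin n) : pderiv i (lin y) = C (y i) := by
  classical
  unfold lin
  rw [map_sum, Finset.sum_eq_single i]
  · rw [pderiv_C_mul, pderiv_X_self, mul_one]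
  · intro j _ hj
    rw [pderiv_C_mul, pderiv_X_of_ne hj, mul_zero]
  · simp

lemma pderiv_sq (i : Fin n) : pderiv i (sq : MvPolynomial (Fin n) ℝ) = 2 * X i := by
  classical
  unfold sq
  rw [map_sum, Finset.sum_eq_single i]
  · rw [pderiv_mul, pderiv_X_self]; ring
  · intro j _ hj
    rw [pderiv_mul, pderiv_X_of_ne hj]; ring
  · simp

/-- the Laplace operator of a zonal monomial -/
lemma lap_lin_sq (y : Fin n → ℝ) (a b : ℕ) : lap (lin y ^ a * sq ^ b) =
    C ((a : ℝ) * (a - 1) * ∑ i, y i * y i) * (lin y ^ (a - 2) * sq ^ b) +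
    C (2 * (b : ℝ) * (2 * a + 2 * b - 2 + n)) * (lin y ^ a * sq ^ (b - 1)) := by
  have e1 : ∀ i, pderiv i (lin y ^ a * sq ^ b) =
      C (y i) * ((a : MvPolynomial (Fin n) ℝ) * lin y ^ (a - 1) * sq ^ b) +
      2 * X i * ((b : MvPolynomial (Fin n) ℝ) * lin y ^ a * sq ^ (b - 1)) := by
    intro i
    rw [pderiv_mul, pderiv_pow, pderiv_pow, pderiv_lin, pderiv_sq]
    ring
  have e2 : ∀ i, pderiv i (pderiv i (lin y ^ a * sq ^ b)) =
      C (y i * y i) * ((a : MvPolynomial (Fin n) ℝ) * ((a - 1 : ℕ) : MvPolynomial (Fin n) ℝ) *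
        lin y ^ (a - 2) * sq ^ b) +
      (C (y i) * X i) * (4 * (a : MvPolynomial (Fin n) ℝ) * (b : MvPolynomial (Fin n) ℝ) * lin y ^ (a - 1) *
        sq ^ (b - 1)) +
      (X i * X i) * (4 * (b : MvPolynomial (Fin n) ℝ) * ((b - 1 : ℕ) : MvPolynomial (Fin n) ℝ) * lin y ^ a *
        sq ^ (b - 2)) +
      2 * (b : MvPolynomial (Fin n) ℝ) * lin y ^ a * sq ^ (b - 1) := by
    intro i
    rw [e1, map_add, pderiv_C_mul, pderiv_mul, pderiv_mul, pderiv_mul, pderiv_mul, pderiv_mul,
      pderiv_mul, pderiv_pow, pderiv_pow, pderiv_pow, pderiv_pow, pderiv_lin, pderiv_sq,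
      pderiv_X_self]
    have hn : ∀ m : ℕ, pderiv i ((m : MvPolynomial (Fin n) ℝ)) = 0 := fun m => by
      rw [← map_natCast (C : ℝ →+* MvPolynomial (Fin n) ℝ)]; exact pderiv_C
    have h2 : pderiv i (2 : MvPolynomial (Fin n) ℝ) = 0 := by exact_mod_cast hn 2
    rw [hn, hn, h2, show a - 1 - 1 = a - 2 by omega, show b - 1 - 1 = b - 2 by omega, C_mul]
    ring
  unfold lap
  rw [Finset.sum_congr rfl fun i _ => e2 i, Finset.sum_add_distrib, Finset.sum_add_distrib,
    Finset.sum_add_distrib, ← Finset.sum_mul, ← Finset.sum_mul, ← Finset.sum_mul, ← map_sum,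
    Finset.sum_const, Finset.card_univ, Fintype.card_fin]
  change _ + lin y * _ + sq * _ + _ = _
  have hm : ∀ m : ℕ, m + 1 + 1 - 2 = m := fun m => by omega
  rcases a with _ | _ | a <;> rcases b with _ | _ | b
  all_goals
    simp only [hm, Nat.cast_zero, Nat.cast_one, Nat.cast_add, nsmul_eq_mul, map_mul, map_add, map_sub,
      map_natCast, map_one, map_ofNat, Nat.add_sub_cancel, map_zero, pow_zero, zero_add, add_zero,
      mul_zero, zero_mul, Nat.zero_sub, Nat.reduceSub, sub_self]
    try ring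

end Pool.Agent.J6H87.AKN
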