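import Pool.Agent.J6H87.AKN.Uni

/-!
The kernel is nonpositive on the admissible region.
-/

set_option autoImplicit false

namespace Pool.Agent.J6H87.AKN

/-- the kernel -/
noncomputable def ker (t x y : ℝ) : ℝ :=
  F0 t + F1 t * (x + y) + FP t * (x ^ 2 + y ^ 2) + F2 t * (x * y) + F5 t * (x ^ 2 * y ^ 2)

lemma F0_eq (t : ℝ) : F0 t = -(FM t * (Fal t + 10)) := by
  unfold F0 FM Fal; ring

lemma F1_eq (t : ℝ) : F1 t = (t + 1) * (t + 1 / 2) * t * FB t := by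
  unfold F1 FB; ring

lemma F0_eqA (t : ℝ) : F0 t = -((1 / 2 - t) * FA t) := by
  unfold F0 FA; ring

lemma F1_eqE (t : ℝ) : F1 t = (FA t - (1 / 2 - t) * FE t) / 16 := by
  unfold F1 FA FE; ring

/-- the kernel away from the critical inner product -/
lemma ker_nonpos_left (t x y : ℝ) (h1 : -1 ≤ t) (h2 : t ≤ 7 / 20) (hx1 : -1 ≤ x) (hx2 : x ≤ 1)
    (hy1 : -1 ≤ y) (hy2 : y ≤ 1) : ker t x y ≤ 0 := by
  have hal : 0 < Fal t := by unfold Fal; nlinarith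
  have hM : 0 ≤ FM t := by
    unfold FM
    have : 0 ≤ t + 1 := by linarith
    positivity
  have d0 := posD0 t h1 h2
  have d1 := posD1 t h1 h2
  have v1 := posV1 t h1 h2
  have v2 := posV2 t h1 h2
  obtain ⟨s, hs⟩ : ∃ s, s = x + y := ⟨_, rfl⟩
  obtain ⟨r, hr⟩ : ∃ r, r = x - y := ⟨_, rfl⟩
  have hx : x = (s + r) / 2 := by rw [hs, hr]; ring
  have hy : y = (s - r) / 2 := by rw [hs, hr]; ring
  have hs2 : s ^ 2 ≤ 4 := by nlinarith
  have hr2 : r ^ 2 ≤ 4 := by nlinarith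
  have hs0 : 0 ≤ s ^ 2 := sq_nonneg s
  have hr0 : 0 ≤ r ^ 2 := sq_nonneg r
  -- the part in r
  have hV : 0 ≤ r ^ 2 * (F2 t / 4 - FP t / 2 + (2 * s ^ 2 - r ^ 2) / 16 * F5 t) := by
    refine mul_nonneg hr0 ?_
    have hz1 : 0 ≤ 1 / 2 - (2 * s ^ 2 - r ^ 2) / 16 := by linarith
    have hz2 : 0 ≤ (2 * s ^ 2 - r ^ 2) / 16 + 1 / 4 := by linarith
    have h3 := mul_nonneg hz1 v1
    have h4 := mul_nonneg hz2 v2
    nlinarith [h3, h4]
  -- the part in s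
  have hw : 0 ≤ 1 - s ^ 2 / 4 := by linarith
  have hw' : 0 ≤ s ^ 2 / 4 := by linarith
  have hD : (t + 1) * FB t ^ 2 ≤
      4 * Fal t * (-FP t / 2 - F2 t / 4 - s ^ 2 / 4 * (F5 t / 4) + 5 / 2 * FM t) := by
    have h3 := mul_nonneg hw d0
    have h4 := mul_nonneg hw' d1
    nlinarith [h3, h4]
  have hS : 0 ≤ FM t * Fal t - F1 t * s +
      s ^ 2 * (-FP t / 2 - F2 t / 4 - s ^ 2 / 4 * (F5 t / 4) + 5 / 2 * FM t) := by
    have h5 : 0 ≤ 4 * Fal t * (FM t * Fal t - F1 t * s +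
        s ^ 2 * (-FP t / 2 - F2 t / 4 - s ^ 2 / 4 * (F5 t / 4) + 5 / 2 * FM t)) := by
      have h6 := mul_le_mul_of_nonneg_left hD hs0
      have h7 : 0 ≤ (t + 1) * (2 * Fal t * ((t + 1 / 2) * t) - FB t * s) ^ 2 :=
        mul_nonneg (by linarith) (sq_nonneg _)
      have h8 : (t + 1) * (2 * Fal t * ((t + 1 / 2) * t) - FB t * s) ^ 2 =
          4 * Fal t * (FM t * Fal t - F1 t * s) + s ^ 2 * ((t + 1) * FB t ^ 2) := by
        rw [F1_eq]; unfold FM; ring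
      nlinarith [h6, h7, h8]
    by_contra hneg
    push Not at hneg
    have : 4 * Fal t * (FM t * Fal t - F1 t * s +
        s ^ 2 * (-FP t / 2 - F2 t / 4 - s ^ 2 / 4 * (F5 t / 4) + 5 / 2 * FM t)) < 0 :=
      mul_neg_of_pos_of_neg (by linarith) hneg
    linarith
  have hMs : 0 ≤ FM t * (5 / 2) * (4 - s ^ 2) := by
    refine mul_nonneg (by linarith) (by linarith)
  have key : -ker t x y = (FM t * Fal t - F1 t * s +
      s ^ 2 * (-FP t / 2 - F2 t / 4 - s ^ 2 / 4 * (F5 t / 4) + 5 / 2 * FM t)) +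
      FM t * (5 / 2) * (4 - s ^ 2) +
      r ^ 2 * (F2 t / 4 - FP t / 2 + (2 * s ^ 2 - r ^ 2) / 16 * F5 t) := by
    unfold ker
    rw [F0_eq, hx, hy]; ring
  linarith

/-- bilinear interpolation in a square -/
lemma bilin (a b c d s w : ℝ) (hs1 : -2 ≤ s) (hs2 : s ≤ 2) (hw1 : 0 ≤ w) (hw2 : w ≤ 1)
    (h1 : 0 ≤ a - 2 * b) (h2 : 0 ≤ a + 2 * b) (h3 : 0 ≤ a - 2 * b + c - 2 * d)
    (h4 : 0 ≤ a + 2 * b + c + 2 * d) : 0 ≤ a + s * b + w * (c + s * d) := by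
  have e1 : 0 ≤ (2 - s) * (1 - w) * (a - 2 * b) :=
    mul_nonneg (mul_nonneg (by linarith) (by linarith)) h1
  have e2 : 0 ≤ (2 + s) * (1 - w) * (a + 2 * b) :=
    mul_nonneg (mul_nonneg (by linarith) (by linarith)) h2
  have e3 : 0 ≤ (2 - s) * w * (a - 2 * b + c - 2 * d) :=
    mul_nonneg (mul_nonneg (by linarith) (by linarith)) h3
  have e4 : 0 ≤ (2 + s) * w * (a + 2 * b + c + 2 * d) :=
    mul_nonneg (mul_nonneg (by linarith) (by linarith)) h4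
  have key : 4 * (a + s * b + w * (c + s * d)) = (2 - s) * (1 - w) * (a - 2 * b) +
    (2 + s) * (1 - w) * (a + 2 * b) + (2 - s) * w * (a - 2 * b + c - 2 * d) +
    (2 + s) * w * (a + 2 * b + c + 2 * d) := by ring
  linarith

/-- the kernel near the critical inner product -/
lemma ker_nonpos_right (t x y : ℝ) (h1 : 7 / 20 ≤ t) (h2 : t ≤ 79 / 128)
    (hσ : t ≤ 1 / 2 - (x + y) / 16 - x * y / 128) (hx1 : -1 ≤ x) (hx2 : x ≤ 1)
    (hy1 : -1 ≤ y) (hy2 : y ≤ 1) : ker t x y ≤ 0 := by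
  have im := posIm t h1 h2
  have ip := posIp t h1 h2
  have jm0 := posJm0 t h1 h2
  have jm1 := posJm1 t h1 h2
  have jp0 := posJp0 t h1 h2
  have jp1 := posJp1 t h1 h2
  have km1 := posKm1 t h1 h2
  have km2 := posKm2 t h1 h2
  have kp1 := posKp1 t h1 h2
  have kp2 := posKp2 t h1 h2
  obtain ⟨s, hs⟩ : ∃ s, s = x + y := ⟨_, rfl⟩
  obtain ⟨r, hr⟩ : ∃ r, r = x - y := ⟨_, rfl⟩
  have hx : x = (s + r) / 2 := by rw [hs, hr]; ring
  have hy : y = (s - r) / 2 := by rw [hs, hr]; ring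
  have hs2 : s ^ 2 ≤ 4 := by nlinarith
  have hr2 : r ^ 2 ≤ 4 := by nlinarith
  have hs0 : 0 ≤ s ^ 2 := sq_nonneg s
  have hr0 : 0 ≤ r ^ 2 := sq_nonneg r
  have hsl : -2 ≤ s := by linarith
  have hsu : s ≤ 2 := by linarith
  have hσ' : 0 ≤ 1 / 2 - s / 16 - (s ^ 2 - r ^ 2) / 512 - t := by
    have : x * y = (s ^ 2 - r ^ 2) / 4 := by rw [hx, hy]; ring
    rw [this, ← hs] at hσ
    linarith
  have hI : 0 ≤ FA t + s * (FE t / 16) := by
    have e1 : 0 ≤ (2 - s) * (FA t - FE t / 8) := mul_nonneg (by linarith) im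
    have e2 : 0 ≤ (2 + s) * (FA t + FE t / 8) := mul_nonneg (by linarith) ip
    have : 4 * (FA t + s * (FE t / 16)) = (2 - s) * (FA t - FE t / 8) +
      (2 + s) * (FA t + FE t / 8) := by ring
    linarith
  have hJ : 0 ≤ (FA t / 512 + FE t / 256 - FP t / 2 - F2 t / 4) + s * (FE t / 8192) +
      s ^ 2 / 4 * (-(F5 t / 4) + s * 0) := by
    refine bilin _ _ _ _ s (s ^ 2 / 4) hsl hsu (by linarith) (by linarith) ?_ ?_ ?_ ?_ <;> linarith
  have hK : 0 ≤ (F2 t / 4 - FP t / 2 - F5 t / 4 - FA t / 512) + s * (-(FE t / 8192)) +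
      ((2 * s ^ 2 - r ^ 2) / 12 + 1 / 3) * (3 / 4 * F5 t + s * 0) := by
    refine bilin _ _ _ _ s _ hsl hsu (by linarith) (by linarith) ?_ ?_ ?_ ?_ <;> linarith
  have key : -ker t x y = (1 / 2 - s / 16 - (s ^ 2 - r ^ 2) / 512 - t) *
      (FA t + s * (FE t / 16)) +
      s ^ 2 * ((FA t / 512 + FE t / 256 - FP t / 2 - F2 t / 4) + s * (FE t / 8192) +
        s ^ 2 / 4 * (-(F5 t / 4) + s * 0)) +
      r ^ 2 * ((F2 t / 4 - FP t / 2 - F5 t / 4 - FA t / 512) + s * (-(FE t / 8192)) +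
      ((2 * s ^ 2 - r ^ 2) / 12 + 1 / 3) * (3 / 4 * F5 t + s * 0)) := by
    unfold ker
    rw [F0_eqA, F1_eqE, hx, hy]; ring
  have g1 := mul_nonneg hσ' hI
  have g2 := mul_nonneg hs0 hJ
  have g3 := mul_nonneg hr0 hK
  linarith

/-- the kernel is nonpositive on the admissible region -/
theorem ker_nonpos (t x y : ℝ) (h1 : -1 ≤ t)
    (hσ : t ≤ 1 / 2 - (x + y) / 16 - x * y / 128) (hx1 : -1 ≤ x) (hx2 : x ≤ 1)
    (hy1 : -1 ≤ y) (hy2 : y ≤ 1) : ker t x y ≤ 0 := by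
  rcases le_total t (7 / 20) with h | h
  · exact ker_nonpos_left t x y h1 h hx1 hx2 hy1 hy2
  · refine ker_nonpos_right t x y h ?_ hσ hx1 hx2 hy1 hy2
    nlinarith

/-- the diagonal of the kernel -/
lemma ker_diag (x : ℝ) : ker 1 x x = 240 + 96 * x - 97 / 20 * x ^ 2 + 97 / 20 * x ^ 4 := by
  unfold ker F0 F1 FP F2 F5; ring

end Pool.Agent.J6H87.AKN
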