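import Pool.Agent.J6H87.AKN.Fischer

/-!
Positive definiteness of the zonal (Gegenbauer) polynomials on the unit sphere.
-/

set_option autoImplicit false

open MvPolynomial Finset

namespace Pool.Agent.J6H87.AKN

variable {n : ℕ}

/-- coefficients of the monic zonal polynomial of degree `k` in dimension `n` -/
noncomputable def al (n k : ℕ) : ℕ → ℝ
  | 0 => 1
  | i + 1 => -(al n k i * (((k : ℝ) - 2 * i) * (k - 2 * i - 1))) /
      (2 * ((i : ℝ) + 1) * (2 * k - 2 * i - 4 + n))

/-- the monic zonal polynomial of degree `k` in dimension `n` -/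
noncomputable def cp (n k : ℕ) (t : ℝ) : ℝ := ∑ i ∈ range (k / 2 + 1), al n k i * t ^ (k - 2 * i)

/-- the zonal harmonic of a unit vector -/
noncomputable def zon (k : ℕ) (y : Fin n → ℝ) : MvPolynomial (Fin n) ℝ :=
  ∑ i ∈ range (k / 2 + 1), C (al n k i) * (lin y ^ (k - 2 * i) * sq ^ i)

lemma al_rec (hn : 3 ≤ n) (k i : ℕ) (hi : i < k / 2 + 1) :
    al n k (i + 1) * (2 * ((i : ℝ) + 1) * (2 * k - 2 * i - 4 + n)) =
      -(al n k i * (((k : ℝ) - 2 * i) * (k - 2 * i - 1))) := by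
  have h2 : 2 * i ≤ k := by omega
  have h2' : 2 * (i : ℝ) ≤ k := by exact_mod_cast h2
  have hn' : (3 : ℝ) ≤ n := by exact_mod_cast hn
  rcases Nat.eq_zero_or_pos k with hk | hk
  · subst hk
    have : i = 0 := by omega
    subst this
    simp [al]
  · have hk' : (1 : ℝ) ≤ k := by exact_mod_cast hk
    have h3 : (0 : ℝ) < 2 * ((i : ℝ) + 1) * (2 * k - 2 * i - 4 + n) := by
      have : (0 : ℝ) ≤ i := by positivity
      have h4 : (0 : ℝ) < 2 * k - 2 * i - 4 + n := by
        have h5 : 2 * i + 4 < 2 * k + n := by omega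
        have h6 : 2 * (i : ℝ) + 4 < 2 * k + n := by exact_mod_cast h5
        linarith
      positivity
    rw [al, div_mul_cancel₀ _ h3.ne']

lemma lap_zon (hn : 3 ≤ n) (k : ℕ) (y : Fin n → ℝ) (hy : ∑ i, y i * y i = 1) :
    lap (zon k y) = 0 := by
  unfold zon
  rw [lap_sum]
  set g : ℕ → MvPolynomial (Fin n) ℝ := fun i =>
    C (al n k i * (2 * (i : ℝ) * (2 * k - 2 * i - 2 + n))) * (lin y ^ (k - 2 * i) * sq ^ (i - 1))
    with hg
  have h : ∀ i ∈ range (k / 2 + 1), lap (C (al n k i) * (lin y ^ (k - 2 * i) * sq ^ i)) =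
      g i - g (i + 1) := by
    intro i hi
    have hi' : i < k / 2 + 1 := Finset.mem_range.1 hi
    have h2 : 2 * i ≤ k := by omega
    rw [lap_C_mul, lap_lin_sq, hy, mul_one, hg]
    have hr := al_rec hn k i hi'
    have e1 : ((i + 1 : ℕ) : ℝ) = (i : ℝ) + 1 := by push_cast; ring
    have e2 : al n k (i + 1) * (2 * ((i + 1 : ℕ) : ℝ) * (2 * k - 2 * ((i + 1 : ℕ) : ℝ) - 2 + n)) =
        -(al n k i * (((k : ℝ) - 2 * i) * (k - 2 * i - 1))) := by
      rw [← hr, e1]; ring
    simp only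
    rw [e2, Nat.cast_sub h2, show k - 2 * i - 2 = k - 2 * (i + 1) by omega,
      show i + 1 - 1 = i by omega]
    push_cast
    simp only [map_mul, map_neg, map_sub, map_add, map_natCast, map_ofNat, map_one]
    ring
  rw [Finset.sum_congr rfl h, Finset.sum_range_sub']
  have h0 : g 0 = 0 := by simp [hg]
  have hlast : g (k / 2 + 1) = 0 := by
    have hr := al_rec hn k (k / 2) (by omega)
    have hz : (((k : ℝ) - 2 * ((k / 2 : ℕ) : ℝ)) * (k - 2 * ((k / 2 : ℕ) : ℝ) - 1)) = 0 := by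
      rcases Nat.even_or_odd' k with ⟨m, hm | hm⟩
      · have : k / 2 = m := by omega
        rw [this]
        have : (k : ℝ) = 2 * m := by rw [hm]; push_cast; ring
        rw [this]; ring
      · have : k / 2 = m := by omega
        rw [this]
        have : (k : ℝ) = 2 * m + 1 := by rw [hm]; push_cast; ring
        rw [this]; ring
    rw [hz, mul_zero, neg_zero] at hr
    have : al n k (k / 2 + 1) * (2 * ((k / 2 + 1 : ℕ) : ℝ) *
        (2 * k - 2 * ((k / 2 + 1 : ℕ) : ℝ) - 2 + n)) = 0 := by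
      rw [← hr]; push_cast; ring
    simp only [hg]
    rw [this]; simp
  rw [h0, hlast, sub_zero]

lemma isHomogeneous_lin (y : Fin n → ℝ) : (lin y).IsHomogeneous 1 := by
  unfold lin
  refine IsHomogeneous.sum _ _ _ fun i _ => ?_
  simpa using (isHomogeneous_C (Fin n) (y i)).mul (isHomogeneous_X ℝ i)

lemma isHomogeneous_sq : (sq : MvPolynomial (Fin n) ℝ).IsHomogeneous 2 := by
  unfold sq
  refine IsHomogeneous.sum _ _ _ fun i _ => ?_
  simpa using (isHomogeneous_X ℝ i).mul (isHomogeneous_X ℝ i)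

lemma isHomogeneous_zon (k : ℕ) (y : Fin n → ℝ) : (zon k y).IsHomogeneous k := by
  unfold zon
  refine IsHomogeneous.sum _ _ _ fun i hi => ?_
  have hi' : i < k / 2 + 1 := Finset.mem_range.1 hi
  have h := ((isHomogeneous_C (Fin n) (al n k i)).mul
    (((isHomogeneous_lin y).pow (k - 2 * i)).mul (isHomogeneous_sq.pow i)))
  have e : 0 + (1 * (k - 2 * i) + 2 * i) = k := by omega
  rwa [e] at h

lemma eval_lin (x y : Fin n → ℝ) : eval x (lin y) = ∑ i, x i * y i := by
  simp [lin, mul_comm]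

lemma eval_sq (x : Fin n → ℝ) : eval x (sq : MvPolynomial (Fin n) ℝ) = ∑ i, x i * x i := by
  simp [sq]

lemma fis_zon (hn : 3 ≤ n) (k : ℕ) (x y : Fin n → ℝ) (hx : ∑ i, x i * x i = 1)
    (hy : ∑ i, y i * y i = 1) :
    fis (zon k x) (zon k y) = (k.factorial : ℝ) * cp n k (∑ i, x i * y i) := by
  have h1 : fis (zon k x) (zon k y) = fis (lin x ^ k) (zon k y) := by
    conv_lhs => rw [zon]
    rw [fis_sum_left, Finset.sum_range_succ']
    have h2 : ∑ i ∈ range (k / 2), fis (C (al n k (i + 1)) * (lin x ^ (k - 2 * (i + 1)) *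
        sq ^ (i + 1))) (zon k y) = 0 := by
      refine Finset.sum_eq_zero fun i _ => ?_
      rw [fis_C_mul_left, show lin x ^ (k - 2 * (i + 1)) * sq ^ (i + 1) =
        sq * (lin x ^ (k - 2 * (i + 1)) * sq ^ i) by ring, fis_sq_mul, lap_zon hn k y hy,
        fis_zero_right, mul_zero]
    rw [h2, zero_add]
    simp [al]
  rw [h1, fis_lin_pow x k _ (isHomogeneous_zon k y)]
  congr 1
  unfold zon cp
  rw [map_sum]
  refine Finset.sum_congr rfl fun i _ => ?_
  simp only [map_mul, map_pow, eval_C, eval_lin, eval_sq, hx, one_pow, mul_one]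

/-- the zonal polynomials are positive definite on the unit sphere -/
theorem cp_psd (hn : 3 ≤ n) (k : ℕ) {ι : Type*} (s : Finset ι) (a : ι → ℝ)
    (u : ι → Fin n → ℝ) (hu : ∀ j ∈ s, ∑ i, u j i * u j i = 1) :
    0 ≤ ∑ j ∈ s, ∑ l ∈ s, a j * a l * cp n k (∑ i, u j i * u l i) := by
  have h := fis_self_nonneg (∑ j ∈ s, C (a j) * zon k (u j))
  rw [fis_sum_left] at h
  have e : ∀ j ∈ s, fis (C (a j) * zon k (u j)) (∑ l ∈ s, C (a l) * zon k (u l)) =
      (k.factorial : ℝ) * ∑ l ∈ s, a j * a l * cp n k (∑ i, u j i * u l i) := by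
    intro j hj
    rw [fis_C_mul_left, fis_sum_right, Finset.mul_sum, Finset.mul_sum]
    refine Finset.sum_congr rfl fun l hl => ?_
    rw [fis_C_mul_right, fis_zon hn k _ _ (hu j hj) (hu l hl)]
    ring
  rw [Finset.sum_congr rfl e, ← Finset.mul_sum] at h
  have hk : (0 : ℝ) < (k.factorial : ℝ) := by positivity
  exact nonneg_of_mul_nonneg_right h hk

end Pool.Agent.J6H87.AKN
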