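import Pool.Agent.J6H87.AKN.Kernel
import Pool.Agent.J6H87.AKN.Zonal

/-!
The local inequality: the weights of the touching directions add up to at most 240.
-/

set_option autoImplicit false

open Finset

namespace Pool.Agent.J6H87.AKN

lemma cp_1 (t : ℝ) : cp 8 1 t = 1 * t ^ 1 := by
  norm_num [cp, al, Finset.sum_range_succ]
  try ring

lemma cp_2 (t : ℝ) : cp 8 2 t = (-1 / 8) * t ^ 0 + 1 * t ^ 2 := by
  norm_num [cp, al, Finset.sum_range_succ]
  try ring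

lemma cp_3 (t : ℝ) : cp 8 3 t = (-3 / 10) * t ^ 1 + 1 * t ^ 3 := by
  norm_num [cp, al, Finset.sum_range_succ]
  try ring

lemma cp_4 (t : ℝ) : cp 8 4 t = (1 / 40) * t ^ 0 + (-1 / 2) * t ^ 2 + 1 * t ^ 4 := by
  norm_num [cp, al, Finset.sum_range_succ]
  try ring

lemma cp_5 (t : ℝ) : cp 8 5 t = (5 / 56) * t ^ 1 + (-5 / 7) * t ^ 3 + 1 * t ^ 5 := by
  norm_num [cp, al, Finset.sum_range_succ]
  try ring

lemma cp_6 (t : ℝ) : cp 8 6 t = (-5 / 896) * t ^ 0 + (45 / 224) * t ^ 2 + (-15 / 16) * t ^ 4 + 1 * t ^ 6 := by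
  norm_num [cp, al, Finset.sum_range_succ]
  try ring

lemma cp_7 (t : ℝ) : cp 8 7 t = (-5 / 192) * t ^ 1 + (35 / 96) * t ^ 3 + (-7 / 6) * t ^ 5 + 1 * t ^ 7 := by
  norm_num [cp, al, Finset.sum_range_succ]
  try ring

lemma ker_expand (t x y : ℝ) : ker t x y = (1 + 7 / 10 * x) * (1 + 7 / 10 * y) +
    cp 8 1 t * ((57 / 25) * ((x + (135 / 76)) * (y + (135 / 76))) + (1 / 10) * ((x ^ 2 + (3 / 2)) * (y ^ 2 + (3 / 2))) + (101 / 10640)) +
    cp 8 2 t * ((152 / 25) * ((x + (3775 / 1862)) * (y + (3775 / 1862))) + (2 / 7) * ((x ^ 2 + (-8 / 5)) * (y ^ 2 + (-8 / 5))) + (1387574 / 1140475)) +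
    cp 8 3 t * ((681 / 70) * ((x + (7885 / 3178)) * (y + (7885 / 3178))) + (5 / 7) * ((x ^ 2 + (-16 / 5)) * (y ^ 2 + (-16 / 5))) + (5533221 / 3114440)) +
    cp 8 4 t * ((236 / 21) * ((x + (321 / 118)) * (y + (321 / 118))) + (40 / 21) * ((x ^ 2 + (-9 / 2)) * (y ^ 2 + (-9 / 2))) + (209 / 1239)) +
    cp 8 5 t * ((148 / 15) * ((x + (1005 / 518)) * (y + (1005 / 518))) + (8 / 3) * ((x ^ 2 + (-11 / 2)) * (y ^ 2 + (-11 / 2))) + (647027 / 16317)) +
    cp 8 6 t * ((96 / 11) * ((x + (-11 / 7)) * (y + (-11 / 7))) + (128 / 33) * ((x ^ 2 + (-5)) * (y ^ 2 + (-5))) + (1824 / 539)) +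
    cp 8 7 t * ((1312 / 55) * ((x + (-165 / 164)) * (y + (-165 / 164))) + (64 / 11) * ((x ^ 2 + (-1)) * (y ^ 2 + (-1))) + (4846 / 9471)) := by
  rw [cp_1, cp_2, cp_3, cp_4, cp_5, cp_6, cp_7]
  unfold ker F0 F1 FP F2 F5
  ring

lemma psd_term {ι : Type*} (s : Finset ι) (u : ι → Fin 8 → ℝ)
    (hu : ∀ j ∈ s, ∑ i, u j i * u j i = 1) (x : ι → ℝ) (k : ℕ) (D B E P g : ℝ)
    (hD : 0 ≤ D) (hE : 0 ≤ E) (hg : 0 ≤ g) :
    0 ≤ ∑ j ∈ s, ∑ l ∈ s, cp 8 k (∑ i, u j i * u l i) *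
      (D * ((x j + B) * (x l + B)) + E * ((x j ^ 2 + P) * (x l ^ 2 + P)) + g) := by
  have h1 := mul_nonneg hD (cp_psd (n := 8) (by norm_num) k s (fun j => x j + B) u hu)
  have h2 := mul_nonneg hE (cp_psd (n := 8) (by norm_num) k s (fun j => x j ^ 2 + P) u hu)
  have h3 := mul_nonneg hg (cp_psd (n := 8) (by norm_num) k s (fun _ => 1) u hu)
  rw [Finset.mul_sum] at h1 h2 h3
  have key : ∑ j ∈ s, ∑ l ∈ s, cp 8 k (∑ i, u j i * u l i) *
      (D * ((x j + B) * (x l + B)) + E * ((x j ^ 2 + P) * (x l ^ 2 + P)) + g) =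
      (∑ j ∈ s, D * ∑ l ∈ s, (x j + B) * (x l + B) * cp 8 k (∑ i, u j i * u l i)) +
      (∑ j ∈ s, E * ∑ l ∈ s, (x j ^ 2 + P) * (x l ^ 2 + P) * cp 8 k (∑ i, u j i * u l i)) +
      ∑ j ∈ s, g * ∑ l ∈ s, (1 : ℝ) * 1 * cp 8 k (∑ i, u j i * u l i) := by
    rw [← Finset.sum_add_distrib, ← Finset.sum_add_distrib]
    refine Finset.sum_congr rfl fun j _ => ?_
    rw [Finset.mul_sum, Finset.mul_sum, Finset.mul_sum, ← Finset.sum_add_distrib,
      ← Finset.sum_add_distrib]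
    refine Finset.sum_congr rfl fun l _ => ?_
    ring
  rw [key]
  linarith

/-- the kernel dominates the square of a linear form -/
theorem ker_psd {ι : Type*} (s : Finset ι) (u : ι → Fin 8 → ℝ)
    (hu : ∀ j ∈ s, ∑ i, u j i * u j i = 1) (x : ι → ℝ) :
    (∑ j ∈ s, (1 + 7 / 10 * x j)) ^ 2 ≤
      ∑ j ∈ s, ∑ l ∈ s, ker (∑ i, u j i * u l i) (x j) (x l) := by
  have h1 := psd_term s u hu x 1 (57 / 25) (135 / 76) (1 / 10) (3 / 2) (101 / 10640)
    (by norm_num) (by norm_num) (by norm_num)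
  have h2 := psd_term s u hu x 2 (152 / 25) (3775 / 1862) (2 / 7) (-8 / 5) (1387574 / 1140475)
    (by norm_num) (by norm_num) (by norm_num)
  have h3 := psd_term s u hu x 3 (681 / 70) (7885 / 3178) (5 / 7) (-16 / 5) (5533221 / 3114440)
    (by norm_num) (by norm_num) (by norm_num)
  have h4 := psd_term s u hu x 4 (236 / 21) (321 / 118) (40 / 21) (-9 / 2) (209 / 1239)
    (by norm_num) (by norm_num) (by norm_num)
  have h5 := psd_term s u hu x 5 (148 / 15) (1005 / 518) (8 / 3) (-11 / 2) (647027 / 16317)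
    (by norm_num) (by norm_num) (by norm_num)
  have h6 := psd_term s u hu x 6 (96 / 11) (-11 / 7) (128 / 33) (-5) (1824 / 539)
    (by norm_num) (by norm_num) (by norm_num)
  have h7 := psd_term s u hu x 7 (1312 / 55) (-165 / 164) (64 / 11) (-1) (4846 / 9471)
    (by norm_num) (by norm_num) (by norm_num)
  have h0 : (∑ j ∈ s, (1 + 7 / 10 * x j)) ^ 2 =
      ∑ j ∈ s, ∑ l ∈ s, (1 + 7 / 10 * x j) * (1 + 7 / 10 * x l) := by
    rw [pow_two, Finset.sum_mul_sum]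
  rw [h0]
  simp only [ker_expand, Finset.sum_add_distrib (s := s)]
  linarith

lemma inner_ge {n : ℕ} (u v : Fin n → ℝ) (hu : ∑ i, u i * u i = 1) (hv : ∑ i, v i * v i = 1) :
    -1 ≤ ∑ i, u i * v i := by
  have h : 0 ≤ ∑ i, (u i + v i) * (u i + v i) := Finset.sum_nonneg fun i _ => mul_self_nonneg _
  have e : ∑ i, (u i + v i) * (u i + v i) =
      ∑ i, u i * u i + ∑ i, v i * v i + 2 * ∑ i, u i * v i := by
    rw [Finset.mul_sum, ← Finset.sum_add_distrib, ← Finset.sum_add_distrib]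
    exact Finset.sum_congr rfl fun i _ => by ring
  linarith

/-- the local inequality in normalised form -/
theorem local_norm {ι : Type*} (s : Finset ι) (u : ι → Fin 8 → ℝ)
    (hu : ∀ j ∈ s, ∑ i, u j i * u j i = 1) (x : ι → ℝ) (hx1 : ∀ j ∈ s, -1 ≤ x j)
    (hx2 : ∀ j ∈ s, x j ≤ 1)
    (hσ : ∀ j ∈ s, ∀ l ∈ s, j ≠ l →
      ∑ i, u j i * u l i ≤ 1 / 2 - (x j + x l) / 16 - x j * x l / 128) :
    ∑ j ∈ s, (1 + x j) ≤ 240 := by
  classical
  have h1 := ker_psd s u hu x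
  have h2 : ∑ j ∈ s, ∑ l ∈ s, ker (∑ i, u j i * u l i) (x j) (x l) ≤
      ∑ j ∈ s, ker 1 (x j) (x j) := by
    refine Finset.sum_le_sum fun j hj => ?_
    rw [← Finset.add_sum_erase s _ hj]
    have h3 : ∑ l ∈ s.erase j, ker (∑ i, u j i * u l i) (x j) (x l) ≤ 0 := by
      refine Finset.sum_nonpos fun l hl => ?_
      have hl' := Finset.mem_of_mem_erase hl
      have hne := Finset.ne_of_mem_erase hl
      exact ker_nonpos _ _ _ (inner_ge _ _ (hu j hj) (hu l hl')) (hσ j hj l hl' hne.symm)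
        (hx1 j hj) (hx2 j hj) (hx1 l hl') (hx2 l hl')
    rw [hu j hj]
    linarith
  have h3 : ∑ j ∈ s, ker 1 (x j) (x j) ≤ ∑ j ∈ s, (240 + 96 * x j) := by
    refine Finset.sum_le_sum fun j hj => ?_
    rw [ker_diag]
    have ha := hx1 j hj
    have hb := hx2 j hj
    have : x j ^ 2 ≤ 1 := by nlinarith
    nlinarith [mul_nonneg (sq_nonneg (x j)) (sub_nonneg.2 this)]
  have h4 : 0 ≤ (240 - ∑ j ∈ s, (1 + 7 / 10 * x j)) ^ 2 := sq_nonneg _
  have h5 : ∑ j ∈ s, (1 + 7 / 10 * x j) = s.card + 7 / 10 * ∑ j ∈ s, x j := by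
    rw [Finset.sum_add_distrib, ← Finset.mul_sum]; simp
  have h6 : ∑ j ∈ s, (240 + 96 * x j) = 240 * s.card + 96 * ∑ j ∈ s, x j := by
    rw [Finset.sum_add_distrib, ← Finset.mul_sum]; simp; ring
  have h7 : ∑ j ∈ s, (1 + x j) = s.card + ∑ j ∈ s, x j := by
    rw [Finset.sum_add_distrib]; simp
  rw [h5] at h1 h4
  rw [h6] at h3
  rw [h7]
  nlinarith [h1, h2, h3, h4]

/-- the weight -/
noncomputable def wgt (y : ℝ) : ℝ := max 0 (min 2 (16 * y - 7))

lemma wgt_add (y : ℝ) : wgt y + wgt (1 - y) = 2 := by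
  unfold wgt
  have h02 : max (0 : ℝ) 2 = 2 := max_eq_right (by norm_num)
  rcases le_total 2 (16 * y - 7) with h | h <;> rcases le_total 2 (16 * (1 - y) - 7) with h' | h' <;>
    rcases le_total 0 (16 * y - 7) with h1 | h1 <;>
    rcases le_total 0 (16 * (1 - y) - 7) with h2 | h2 <;>
    simp only [min_eq_left, min_eq_right, max_eq_left, max_eq_right, h, h', h1, h2, h02] <;> linarith

/-- the local inequality -/
theorem local_ineq {ι : Type*} (s : Finset ι) (u : ι → Fin 8 → ℝ)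
    (hu : ∀ j ∈ s, ∑ i, u j i * u j i = 1) (y : ι → ℝ)
    (hσ : ∀ j ∈ s, ∀ l ∈ s, j ≠ l → ∑ i, u j i * u l i ≤ 1 - 2 * (y j * y l)) :
    ∑ j ∈ s, wgt (y j) ≤ 240 := by
  classical
  set s' := s.filter fun j => 7 / 16 ≤ y j with hs'
  have hsub : s' ⊆ s := Finset.filter_subset _ _
  have h1 : ∑ j ∈ s, wgt (y j) = ∑ j ∈ s', wgt (y j) := by
    refine (Finset.sum_subset hsub fun j hj hj' => ?_).symm
    have : ¬ 7 / 16 ≤ y j := fun h => hj' (Finset.mem_filter.2 ⟨hj, h⟩)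
    push Not at this
    unfold wgt
    rw [max_eq_left]
    exact (min_le_right _ _).trans (by linarith)
  have hmem : ∀ j ∈ s', 7 / 16 ≤ y j := fun j hj => (Finset.mem_filter.1 hj).2
  have h2 : ∀ j ∈ s', wgt (y j) = 1 + min 1 (16 * y j - 8) := by
    intro j hj
    have := hmem j hj
    unfold wgt
    rcases le_total 2 (16 * y j - 7) with h | h
    · rw [min_eq_left h, min_eq_left (by linarith)]; norm_num
    · rw [min_eq_right h, min_eq_right (by linarith), max_eq_right (by linarith)]; ring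
  rw [h1, Finset.sum_congr rfl h2]
  refine local_norm s' u (fun j hj => hu j (hsub hj)) (fun j => min 1 (16 * y j - 8)) ?_ ?_ ?_
  · intro j hj
    have := hmem j hj
    exact le_min (by norm_num) (by linarith)
  · intro j _
    exact min_le_left _ _
  · intro j hj l hl hne
    have h3 := hσ j (hsub hj) l (hsub hl) hne
    have hyj := hmem j hj
    have hyl := hmem l hl
    have h4 : min 1 (16 * y j - 8) ≤ 16 * y j - 8 := min_le_right _ _
    have h5 : min 1 (16 * y l - 8) ≤ 16 * y l - 8 := min_le_right _ _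
    have h6 : -1 ≤ min 1 (16 * y j - 8) := le_min (by norm_num) (by linarith)
    have h7 : -1 ≤ min 1 (16 * y l - 8) := le_min (by norm_num) (by linarith)
    generalize min 1 (16 * y j - 8) = a at *
    generalize min 1 (16 * y l - 8) = b at *
    have h8 : (8 + a) / 16 * ((8 + b) / 16) ≤ y j * y l :=
      mul_le_mul (by linarith) (by linarith) (by linarith) (by linarith)
    nlinarith [h3, h8]

end Pool.Agent.J6H87.AKN
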