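import Mathlib

/-!
The 240 shortest vectors of the lattice `E_8` (scaled by 2).
-/

set_option autoImplicit false

namespace Pool.Agent.J6H87.AKN

/-- membership in the lattice `E_8` scaled by 2: all coordinates have the same parity and their sum
is divisible by 4 -/
def L8 (v : Fin 8 → ℤ) : Prop := (∀ i, (2 : ℤ) ∣ v i - v 0) ∧ (4 : ℤ) ∣ ∑ i, v i

instance : DecidablePred L8 := fun v => by unfold L8; infer_instance

/-- codes of the 240 shortest vectors in base 5 -/
def codes : List ℕ :=
  [7812, 32812, 37812, 38812, 39012, 39052, 39060, 39064, 39072, 39112, 39312, 40312, 45312,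
    70312, 97656, 97668, 97708, 97716, 97908, 97916, 97956, 97968, 98908, 98916, 98956, 98968,
    99156, 99168, 99208, 99216, 103908, 103916, 103956, 103968, 104156, 104168, 104208, 104216,
    105156, 105168, 105208, 105216, 105408, 105416, 105456, 105468, 128908, 128916, 128956,
    128968, 129156, 129168, 129208, 129216, 130156, 130168, 130208, 130216, 130408, 130416,
    130456, 130468, 135156, 135168, 135208, 135216, 135408, 135416, 135456, 135468, 136408,
    136416, 136456, 136468, 136656, 136668, 136708, 136716, 157812, 162812, 163812, 164012,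
    164052, 164060, 164064, 164072, 164112, 164312, 165312, 170312, 187812, 188812, 189012,
    189052, 189060, 189064, 189072, 189112, 189312, 190312, 193812, 194012, 194052, 194060,
    194064, 194072, 194112, 194312, 195012, 195052, 195060, 195064, 195072, 195112, 195252,
    195260, 195264, 195272, 195300, 195304, 195320, 195324, 195352, 195360, 195364, 195372,
    195512, 195552, 195560, 195564, 195572, 195612, 196312, 196512, 196552, 196560, 196564,
    196572, 196612, 196812, 200312, 201312, 201512, 201552, 201560, 201564, 201572, 201612,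
    201812, 202812, 220312, 225312, 226312, 226512, 226552, 226560, 226564, 226572, 226612,
    226812, 227812, 232812, 253908, 253916, 253956, 253968, 254156, 254168, 254208, 254216,
    255156, 255168, 255208, 255216, 255408, 255416, 255456, 255468, 260156, 260168, 260208,
    260216, 260408, 260416, 260456, 260468, 261408, 261416, 261456, 261468, 261656, 261668,
    261708, 261716, 285156, 285168, 285208, 285216, 285408, 285416, 285456, 285468, 286408,
    286416, 286456, 286468, 286656, 286668, 286708, 286716, 291408, 291416, 291456, 291468,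
    291656, 291668, 291708, 291716, 292656, 292668, 292708, 292716, 292908, 292916, 292956,
    292968, 320312, 345312, 350312, 351312, 351512, 351552, 351560, 351564, 351572, 351612,
    351812, 352812, 357812, 382812]

/-- the vector with a given code -/
def dec (n : ℕ) (k : Fin 8) : ℤ := ((n / 5 ^ (k : ℕ) % 5 : ℕ) : ℤ) - 2

/-- the code of a vector -/
def enc (v : Fin 8 → ℤ) : ℕ :=
  ((v 0 + 2) + (v 1 + 2) * 5 + (v 2 + 2) * 25 + (v 3 + 2) * 125 + (v 4 + 2) * 625 +
    (v 5 + 2) * 3125 + (v 6 + 2) * 15625 + (v 7 + 2) * 78125).toNat

lemma codes_length : codes.length = 240 := by decide +kernel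

lemma codes_nodup : codes.Nodup := by decide +kernel

lemma enc_dec : (codes.map dec).map enc = codes := by decide +kernel

/-- the 240 shortest vectors -/
def roots : Finset (Fin 8 → ℤ) :=
  ⟨(codes.map dec : List (Fin 8 → ℤ)), List.Nodup.of_map enc (by rw [enc_dec]; exact codes_nodup)⟩

lemma card_roots : roots.card = 240 := by
  change (codes.map dec).length = 240
  rw [List.length_map, codes_length]

lemma roots_prop : ∀ v ∈ roots, L8 v ∧ ∑ i, v i * v i = 8 ∧ ∀ i, -2 ≤ v i ∧ v i ≤ 2 := by
  have h : ∀ n ∈ codes, L8 (dec n) ∧ ∑ i, dec n i * dec n i = 8 ∧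
      ∀ i, -2 ≤ dec n i ∧ dec n i ≤ 2 := by decide +kernel
  intro v hv
  have hv' : v ∈ codes.map dec := hv
  obtain ⟨n, hn, rfl⟩ := List.mem_map.1 hv'
  exact h n hn

end Pool.Agent.J6H87.AKN
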