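import Pool.Agent.J6H87.AKN.Upper
import Pool.Agent.J6H87.AKN.Roots

/-!
The lower bounds: the kissing number of dimension eight is at least 240, and finite pieces of the
lattice `E_8` have average kissing number arbitrarily close to 240.
-/

set_option autoImplicit false

open Finset Metric Filter

namespace Pool.Agent.J6H87.AKN

lemma L8_zero : L8 0 := by decide

lemma L8_add {v w : Fin 8 → ℤ} (hv : L8 v) (hw : L8 w) : L8 (v + w) := by
  refine ⟨fun i => ?_, ?_⟩
  · have h1 := hv.1 i
    have h2 := hw.1 i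
    simp only [Pi.add_apply]
    omega
  · simp only [Pi.add_apply, Finset.sum_add_distrib]
    exact dvd_add hv.2 hw.2

lemma L8_sub {v w : Fin 8 → ℤ} (hv : L8 v) (hw : L8 w) : L8 (v - w) := by
  refine ⟨fun i => ?_, ?_⟩
  · have h1 := hv.1 i
    have h2 := hw.1 i
    simp only [Pi.sub_apply]
    omega
  · simp only [Pi.sub_apply, Finset.sum_sub_distrib]
    exact dvd_sub hv.2 hw.2

/-- nonzero vectors of the lattice have squared norm at least 8 -/
lemma L8_min {v : Fin 8 → ℤ} (hv : L8 v) (h0 : v ≠ 0) : 8 ≤ ∑ i, v i * v i := by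
  rcases Int.even_or_odd (v 0) with he | ho
  · -- all coordinates are even
    have hall : ∀ i, ∃ a, v i = 2 * a := by
      intro i
      have h1 := hv.1 i
      obtain ⟨b, hb⟩ := he
      obtain ⟨c, hc⟩ := h1
      exact ⟨b + c, by omega⟩
    choose w hw using hall
    have hsum : ∑ i, v i = 2 * ∑ i, w i := by
      rw [Finset.mul_sum]; exact Finset.sum_congr rfl fun i _ => hw i
    have hev : (2 : ℤ) ∣ ∑ i, w i := by
      have := hv.2
      rw [hsum] at this
      omega
    have hsq : ∑ i, v i * v i = 4 * ∑ i, w i * w i := by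
      rw [Finset.mul_sum]; exact Finset.sum_congr rfl fun i _ => by rw [hw i]; ring
    have hpar : (2 : ℤ) ∣ ∑ i, w i * w i - ∑ i, w i := by
      rw [← Finset.sum_sub_distrib]
      refine Finset.dvd_sum fun i _ => ?_
      rcases Int.even_or_odd' (w i) with ⟨k, hk | hk⟩
      · exact ⟨2 * k * k - k, by rw [hk]; ring⟩
      · exact ⟨2 * k * k + k, by rw [hk]; ring⟩
    have hpos : 0 < ∑ i, w i * w i := by
      obtain ⟨i, hi⟩ : ∃ i, v i ≠ 0 := by
        by_contra hcon
        push Not at hcon
        exact h0 (funext hcon)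
      have hwi : w i ≠ 0 := fun h => hi (by rw [hw i, h, mul_zero])
      exact Finset.sum_pos' (fun j _ => mul_self_nonneg _) ⟨i, Finset.mem_univ _,
        mul_self_pos.2 hwi⟩
    omega
  · have h1 : ∀ i, 1 ≤ v i * v i := by
      intro i
      have h1 := hv.1 i
      obtain ⟨b, hb⟩ := ho
      obtain ⟨c, hc⟩ := h1
      have hne : v i ≠ 0 := by omega
      have : 0 < v i * v i := mul_self_pos.2 hne
      omega
    calc (8 : ℤ) = ∑ _i : Fin 8, (1 : ℤ) := by simp
      _ ≤ ∑ i, v i * v i := Finset.sum_le_sum fun i _ => h1 i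

/-- the point of Euclidean space with given integer coordinates -/
noncomputable def toE (v : Fin 8 → ℤ) : EuclideanSpace ℝ (Fin 8) :=
  WithLp.toLp 2 fun i => (v i : ℝ)

lemma dist_toE (v w : Fin 8 → ℤ) :
    dist (toE v) (toE w) ^ 2 = ((∑ i, (v - w) i * (v - w) i : ℤ) : ℝ) := by
  rw [dist_sq_eq]
  push_cast
  refine Finset.sum_congr rfl fun i _ => ?_
  simp [toE]

lemma sqrt8 : (2 * √2) ^ 2 = (8 : ℝ) := by
  rw [mul_pow, Real.sq_sqrt (by norm_num)]; norm_num

lemma dist_toE_ge {v w : Fin 8 → ℤ} (hv : L8 v) (hw : L8 w) (h : v ≠ w) :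
    2 * √2 ≤ dist (toE v) (toE w) := by
  have h1 := L8_min (L8_sub hv hw) (sub_ne_zero.2 h)
  refine le_of_sq_le_sq ?_ dist_nonneg
  rw [sqrt8, dist_toE]
  exact_mod_cast h1

lemma dist_toE_eq {v w : Fin 8 → ℤ} (h : ∑ i, (v - w) i * (v - w) i = 8) :
    dist (toE v) (toE w) = 2 * √2 := by
  have h1 : dist (toE v) (toE w) ^ 2 = (2 * √2) ^ 2 := by
    rw [sqrt8, dist_toE, h]; norm_num
  exact (pow_left_inj₀ dist_nonneg (by positivity) two_ne_zero).1 h1

/-- the lattice points in a cube -/
noncomputable def box (m : ℕ) : Finset (Fin 8 → ℤ) :=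
  (Fintype.piFinset fun _ => Finset.Icc (-(2 * m : ℤ)) (2 * m)).filter L8

lemma mem_box {m : ℕ} {v : Fin 8 → ℤ} :
    v ∈ box m ↔ (∀ i, -(2 * m : ℤ) ≤ v i ∧ v i ≤ 2 * m) ∧ L8 v := by
  simp [box]

lemma box_zero : 1 ≤ (box 0).card := by
  refine Finset.card_pos.2 ⟨0, mem_box.2 ⟨fun i => by simp, L8_zero⟩⟩

lemma card_box_le (m : ℕ) : (box m).card ≤ (4 * m + 1) ^ 8 := by
  refine (Finset.card_filter_le _ _).trans ?_
  rw [Fintype.card_piFinset]
  simp only [Int.card_Icc, Finset.prod_const, Finset.card_univ, Fintype.card_fin]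
  refine le_of_eq ?_
  congr 1
  omega

lemma box_add {m : ℕ} {v w : Fin 8 → ℤ} (hv : v ∈ box m) (hw : w ∈ roots) :
    v + w ∈ box (m + 1) := by
  obtain ⟨h1, h2⟩ := mem_box.1 hv
  obtain ⟨h3, _, h5⟩ := roots_prop w hw
  refine mem_box.2 ⟨fun i => ?_, L8_add h2 h3⟩
  have := h1 i
  have := h5 i
  simp only [Pi.add_apply]
  push_cast
  omega

/-- the packing of the pieces of the lattice -/
noncomputable def piece (m : ℕ) : Packing 8 (box m).card where
  c i := toE ((box m).equivFin.symm i).1
  r _ := √2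
  pos _ := by positivity
  disj i j hij := by
    rw [disj_iff _ _ (by positivity) (by positivity), ← two_mul]
    refine dist_toE_ge (mem_box.1 ((box m).equivFin.symm i).2).2
      (mem_box.1 ((box m).equivFin.symm j).2).2 fun h => hij ?_
    exact (box m).equivFin.symm.injective (Subtype.ext h)

/-- the inner balls of the piece have at least 240 neighbours -/
lemma degree_piece (m : ℕ) [DecidableRel (piece (m + 1)).contact.Adj]
    (i : Fin (box (m + 1)).card) (hi : ((box (m + 1)).equivFin.symm i).1 ∈ box m) :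
    240 ≤ (piece (m + 1)).contact.degree i := by
  classical
  rw [← card_roots, SimpleGraph.degree]
  set p := ((box (m + 1)).equivFin.symm i).1 with hp
  refine Finset.card_le_card_of_injOn
    (fun w => if h : p + w ∈ box (m + 1) then (box (m + 1)).equivFin ⟨p + w, h⟩ else i) ?_ ?_
  · intro w hw
    have hw' : w ∈ roots := hw
    have hmem := box_add hi hw'
    have hr := roots_prop w hw'
    simp only [dif_pos hmem]
    rw [Finset.mem_coe, SimpleGraph.mem_neighborFinset]
    have h8 : ∑ k, (p - (p + w)) k * (p - (p + w)) k = 8 := by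
      rw [← hr.2.1]
      exact Finset.sum_congr rfl fun k _ => by simp
    refine ⟨fun h => ?_, ?_⟩
    · have h1 : (box (m + 1)).equivFin.symm i = ⟨p + w, hmem⟩ := by
        rw [h, Equiv.symm_apply_apply]
      have h2 : p = p + w := congrArg Subtype.val h1
      rw [← h2] at h8
      simp at h8
    · change dist (toE ((box (m + 1)).equivFin.symm i).1)
        (toE ((box (m + 1)).equivFin.symm ((box (m + 1)).equivFin ⟨p + w, hmem⟩)).1) = √2 + √2
      rw [Equiv.symm_apply_apply, ← two_mul]
      exact dist_toE_eq h8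
  · intro w hw w' hw' h
    have hmem := box_add hi (show w ∈ roots from hw)
    have hmem' := box_add hi (show w' ∈ roots from hw')
    simp only [dif_pos hmem, dif_pos hmem'] at h
    have h1 := congrArg Subtype.val ((box (m + 1)).equivFin.injective h)
    exact add_left_cancel h1

lemma avg_piece (m : ℕ) :
    240 * ((box m).card : ℝ) / (box (m + 1)).card ≤ (piece (m + 1)).avg := by
  classical
  have hsub : box m ⊆ box (m + 1) := by
    intro v hv
    obtain ⟨h1, h2⟩ := mem_box.1 hv
    refine mem_box.2 ⟨fun i => ?_, h2⟩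
    have := h1 i
    push_cast
    omega
  have h : 240 * (box m).card ≤ ∑ i, (piece (m + 1)).contact.degree i := by
    set S : Finset (Fin (box (m + 1)).card) :=
      Finset.univ.filter fun i => ((box (m + 1)).equivFin.symm i).1 ∈ box m with hS
    have hc : (box m).card ≤ S.card := by
      refine Finset.card_le_card_of_injOn
        (fun v => if h : v ∈ box (m + 1) then (box (m + 1)).equivFin ⟨v, h⟩ else
          (box (m + 1)).equivFin ⟨0, mem_box.2 ⟨fun i => by
            simp only [Pi.zero_apply]; push_cast; omega, L8_zero⟩⟩) ?_ ?_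
      · intro v hv
        have hv' := hsub (show v ∈ box m from hv)
        simp only [dif_pos hv']
        rw [Finset.mem_coe, hS, Finset.mem_filter]
        refine ⟨Finset.mem_univ _, ?_⟩
        rw [Equiv.symm_apply_apply]
        exact hv
      · intro v hv w hw hvw
        have hv' := hsub (show v ∈ box m from hv)
        have hw' := hsub (show w ∈ box m from hw)
        simp only [dif_pos hv', dif_pos hw'] at hvw
        exact congrArg Subtype.val ((box (m + 1)).equivFin.injective hvw)
    calc 240 * (box m).card ≤ 240 * S.card := Nat.mul_le_mul_left _ hc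
      _ = ∑ _i ∈ S, 240 := by rw [Finset.sum_const, smul_eq_mul, mul_comm]
      _ ≤ ∑ i ∈ S, (piece (m + 1)).contact.degree i :=
          Finset.sum_le_sum fun i hi => degree_piece m i (Finset.mem_filter.1 hi).2
      _ ≤ ∑ i, (piece (m + 1)).contact.degree i :=
          Finset.sum_le_sum_of_subset (Finset.subset_univ _)
  rw [SimpleGraph.sum_degrees_eq_twice_card_edges, ← ncard_edges] at h
  unfold Packing.avg
  refine div_le_div_of_nonneg_right ?_ (Nat.cast_nonneg _)
  exact_mod_cast h

theorem le_kappa : 240 ≤ kappa 8 := by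
  by_contra hlt
  push Not at hlt
  obtain ⟨a, ha1, ha2⟩ := EReal.lt_iff_exists_real_btwn.1 hlt
  rw [ereal240, EReal.coe_lt_coe_iff] at ha2
  have hk : ∀ m, 1 ≤ (box m).card := by
    intro m
    refine Finset.card_pos.2 ⟨0, mem_box.2 ⟨fun i => ?_, L8_zero⟩⟩
    simp only [Pi.zero_apply]
    omega
  have hstep : ∀ m, ((box m).card : ℝ) ≤ a / 240 * (box (m + 1)).card := by
    intro m
    have h1 : ((piece (m + 1)).avg : EReal) ≤ kappa 8 := by
      unfold kappa
      exact le_iSup_of_le _ (le_iSup_of_le (hk (m + 1)) (le_iSup_of_le (piece (m + 1)) le_rfl))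
    have h2 : (piece (m + 1)).avg < a := EReal.coe_lt_coe_iff.1 (h1.trans_lt ha1)
    have h3 := (avg_piece m).trans_lt h2
    have hp : (0 : ℝ) < (box (m + 1)).card := by exact_mod_cast hk (m + 1)
    rw [div_lt_iff₀ hp] at h3
    linarith
  have ha0 : 0 < a := by
    have h1 := hstep 0
    have h2 : (1 : ℝ) ≤ (box 0).card := by exact_mod_cast box_zero
    have hp : (0 : ℝ) < (box (0 + 1)).card := by exact_mod_cast hk 1
    by_contra hneg
    push Not at hneg
    have : a / 240 * (box (0 + 1)).card ≤ 0 :=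
      mul_nonpos_of_nonpos_of_nonneg (by linarith) hp.le
    linarith
  set q : ℝ := a / 240 with hq
  have hq0 : 0 < q := by positivity
  have hq1 : q < 1 := by rw [hq]; linarith
  have hind : ∀ m, ((box 0).card : ℝ) ≤ q ^ m * (box m).card := by
    intro m
    induction m with
    | zero => simp
    | succ m ih =>
      refine ih.trans ?_
      rw [pow_succ, mul_assoc]
      exact mul_le_mul_of_nonneg_left (hstep m) (by positivity)
  have hlim : Tendsto (fun m : ℕ => (m : ℝ) ^ 8 * q ^ m) atTop (nhds 0) :=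
    tendsto_pow_const_mul_const_pow_of_abs_lt_one 8 (by rw [abs_of_pos hq0]; exact hq1)
  have hlim2 : Tendsto (fun m : ℕ => 5 ^ 8 * ((m : ℝ) ^ 8 * q ^ m)) atTop (nhds 0) := by
    simpa using hlim.const_mul (5 ^ 8)
  have hev := (hlim2.eventually (gt_mem_nhds (show (0 : ℝ) < 1 by norm_num))).and
    (eventually_ge_atTop 1)
  obtain ⟨m, hm1, hm2⟩ := hev.exists
  have h1 := hind m
  have h2 : (1 : ℝ) ≤ (box 0).card := by exact_mod_cast box_zero
  have h3 : ((box m).card : ℝ) ≤ (5 * m) ^ 8 := by
    have h4 : ((box m).card : ℝ) ≤ ((4 * m + 1 : ℕ) : ℝ) ^ 8 := by exact_mod_cast card_box_le m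
    refine h4.trans ?_
    have h5 : ((4 * m + 1 : ℕ) : ℝ) ≤ 5 * m := by
      have : (1 : ℝ) ≤ m := by exact_mod_cast hm2
      push_cast
      linarith
    gcongr
  have h6 : q ^ m * (box m).card ≤ q ^ m * (5 * m) ^ 8 :=
    mul_le_mul_of_nonneg_left h3 (by positivity)
  have h7 : q ^ m * (5 * (m : ℝ)) ^ 8 = 5 ^ 8 * ((m : ℝ) ^ 8 * q ^ m) := by ring
  linarith

theorem kappa_eight : kappa 8 = 240 := le_antisymm kappa_le le_kappa

/-- 240 unit balls touch a unit ball in dimension eight -/
theorem kiss_mem : 240 ∈ kissSet 8 := by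
  classical
  have hcard : Fintype.card (roots : Finset (Fin 8 → ℤ)) = 240 := by
    rw [Fintype.card_coe, card_roots]
  set e : Fin 240 ≃ roots := (Fintype.equivFinOfCardEq hcard).symm with he
  have h2 : (0 : ℝ) < √2 := by positivity
  refine ⟨fun i => (√2)⁻¹ • toE (e i).1, fun i => ?_, fun i j hij => ?_⟩
  · have h1 := (roots_prop (e i).1 (e i).2).2.1
    have h3 : dist (toE (e i).1) (toE 0) = 2 * √2 := dist_toE_eq (by simpa using h1)
    have h0 : toE 0 = 0 := by
      unfold toE; ext k; simp
    rw [h0, dist_zero_right] at h3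
    rw [dist_zero_right, norm_smul, h3, Real.norm_of_nonneg (by positivity)]
    field_simp
  · rw [disj_iff _ _ one_pos one_pos, dist_smul₀, Real.norm_of_nonneg (by positivity)]
    have hne : (e i).1 ≠ (e j).1 := fun h => hij (e.injective (Subtype.ext h))
    have h3 := dist_toE_ge (roots_prop (e i).1 (e i).2).1 (roots_prop (e j).1 (e j).2).1 hne
    have h4 : (√2)⁻¹ * (2 * √2) ≤ (√2)⁻¹ * dist (toE (e i).1) (toE (e j).1) :=
      mul_le_mul_of_nonneg_left h3 (by positivity)
    have h5 : (√2)⁻¹ * (2 * √2) = 2 := by field_simp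
    linarith

theorem isGreatest_kiss : IsGreatest (kissSet 8) 240 := ⟨kiss_mem, fun _ hm => kiss_le hm⟩

theorem tau_eight : tau 8 = 240 := isGreatest_kiss.csSup_eq

end Pool.Agent.J6H87.AKN
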