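import Mathlib

/-!
The univariate inequalities behind the average kissing number in dimension eight.
Each polynomial is nonnegative on the given interval: on each piece it is written with
nonnegative coefficients in the Bernstein basis.
-/

set_option autoImplicit false

namespace Pool.Agent.J6H87.AKN

/-- the constant part of the kernel -/
noncomputable def F0 (t : ℝ) : ℝ :=
  (-200 / 21) * t ^ 2 + (-680 / 21) * t ^ 3 + (160 / 21) * t ^ 4 + (2560 / 21) * t ^ 5 + (2560 / 21) * t ^ 6 + (640 / 21) * t ^ 7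

/-- the linear part of the kernel -/
noncomputable def F1 (t : ℝ) : ℝ :=
  (-6 / 7) * t + (-40 / 7) * t ^ 2 + (12 / 7) * t ^ 3 + (304 / 7) * t ^ 4 + (330 / 7) * t ^ 5 + (-96 / 7) * t ^ 6 + (-24) * t ^ 7

/-- the pure quadratic part of the kernel -/
noncomputable def FP (t : ℝ) : ℝ :=
  (-113 / 2310) + (-1489 / 4620) * t + (-26 / 385) * t ^ 2 + (1402 / 231) * t ^ 3 + (740 / 77) * t ^ 4 + (-260 / 33) * t ^ 5 + (-640 / 33) * t ^ 6 + (-64 / 11) * t ^ 7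

/-- the mixed quadratic part of the kernel -/
noncomputable def F2 (t : ℝ) : ℝ :=
  (-218 / 5775) + (-2917 / 7700) * t + (12787 / 5775) * t ^ 2 + (8761 / 770) * t ^ 3 + (706 / 231) * t ^ 4 + (-988 / 55) * t ^ 5 + (96 / 11) * t ^ 6 + (1312 / 55) * t ^ 7

/-- the quartic part of the kernel -/
noncomputable def F5 (t : ℝ) : ℝ :=
  (-3 / 308) + (-32 / 1155) * t + (26 / 231) * t ^ 2 + (215 / 231) * t ^ 3 + (-400 / 231) * t ^ 4 + (-136 / 33) * t ^ 5 + (128 / 33) * t ^ 6 + (64 / 11) * t ^ 7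

/-- auxiliary polynomial -/
noncomputable def FA (t : ℝ) : ℝ :=
  (400 / 21) * t ^ 2 + (720 / 7) * t ^ 3 + (4000 / 21) * t ^ 4 + (960 / 7) * t ^ 5 + (640 / 21) * t ^ 6

/-- auxiliary polynomial -/
noncomputable def FE (t : ℝ) : ℝ :=
  (192 / 7) * t + (5792 / 21) * t ^ 2 + (14752 / 21) * t ^ 3 + (8320 / 21) * t ^ 4 + (-9280 / 21) * t ^ 5 + (-384) * t ^ 6

/-- auxiliary polynomial -/
noncomputable def FB (t : ℝ) : ℝ :=
  (-12 / 7) + (-44 / 7) * t + (180 / 7) * t ^ 2 + (156 / 7) * t ^ 3 + (-24) * t ^ 4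

/-- auxiliary polynomial -/
noncomputable def FM (t : ℝ) : ℝ := (t + 1) * (t + 1 / 2) ^ 2 * t ^ 2

/-- auxiliary polynomial -/
noncomputable def Fal (t : ℝ) : ℝ := (1 / 2 - t) * (1600 / 21 + 640 / 21 * t) - 10

lemma posD0_0 (t : ℝ) (h1 : (-1) ≤ t) (h2 : t ≤ (-3 / 4)) :
    0 ≤ 4 * Fal t * (-FP t / 2 - F2 t / 4 + 5 / 2 * FM t) - (t + 1) * FB t ^ 2 := by
  obtain ⟨u, hu⟩ : ∃ u, u = t - (-1) := ⟨_, rfl⟩
  obtain ⟨v, hv⟩ : ∃ v, v = (-3 / 4) - t := ⟨_, rfl⟩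
  have hu0 : 0 ≤ u := by rw [hu]; linarith
  have hv0 : 0 ≤ v := by rw [hv]; linarith
  have e : 4 * Fal t * (-FP t / 2 - F2 t / 4 + 5 / 2 * FM t) - (t + 1) * FB t ^ 2 =
    (3670409216 / 35) * u ^ 0 * v ^ 9 +
    (32062472192 / 49) * u ^ 1 * v ^ 8 +
    (263056965632 / 147) * u ^ 2 * v ^ 7 +
    (22727058374656 / 8085) * u ^ 3 * v ^ 6 +
    (67671748132864 / 24255) * u ^ 4 * v ^ 5 +
    (43920471989248 / 24255) * u ^ 5 * v ^ 4 +
    (1239934791680 / 1617) * u ^ 6 * v ^ 3 +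
    (141299228416 / 693) * u ^ 7 * v ^ 2 +
    (106934253824 / 3465) * u ^ 8 * v ^ 1 +
    (335060672 / 165) * u ^ 9 * v ^ 0 := by
    rw [hu, hv]; unfold Fal FP F2 FM FB; ring
  rw [e]; positivity

lemma posD0_1 (t : ℝ) (h1 : (-3 / 4) ≤ t) (h2 : t ≤ (-3 / 5)) :
    0 ≤ 4 * Fal t * (-FP t / 2 - F2 t / 4 + 5 / 2 * FM t) - (t + 1) * FB t ^ 2 := by
  obtain ⟨u, hu⟩ : ∃ u, u = t - (-3 / 4) := ⟨_, rfl⟩
  obtain ⟨v, hv⟩ : ∃ v, v = (-3 / 5) - t := ⟨_, rfl⟩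
  have hu0 : 0 ≤ u := by rw [hu]; linarith
  have hv0 : 0 ≤ v := by rw [hv]; linarith
  have e : 4 * Fal t * (-FP t / 2 - F2 t / 4 + 5 / 2 * FM t) - (t + 1) * FB t ^ 2 =
    (130883075000000 / 649539) * u ^ 0 * v ^ 9 +
    (4838775380000000 / 4546773) * u ^ 1 * v ^ 8 +
    (10618042180000000 / 4546773) * u ^ 2 * v ^ 7 +
    (88028643526400000 / 31827411) * u ^ 3 * v ^ 6 +
    (9137507539840000 / 4546773) * u ^ 4 * v ^ 5 +
    (36306723814400000 / 31827411) * u ^ 5 * v ^ 4 +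
    (23016029083648000 / 31827411) * u ^ 6 * v ^ 3 +
    (13722615252992000 / 31827411) * u ^ 7 * v ^ 2 +
    (4951414204825600 / 31827411) * u ^ 8 * v ^ 1 +
    (740145267343360 / 31827411) * u ^ 9 * v ^ 0 := by
    rw [hu, hv]; unfold Fal FP F2 FM FB; ring
  rw [e]; positivity

lemma posD0_2 (t : ℝ) (h1 : (-3 / 5) ≤ t) (h2 : t ≤ (-1 / 4)) :
    0 ≤ 4 * Fal t * (-FP t / 2 - F2 t / 4 + 5 / 2 * FM t) - (t + 1) * FB t ^ 2 := by
  obtain ⟨u, hu⟩ : ∃ u, u = t - (-3 / 5) := ⟨_, rfl⟩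
  obtain ⟨v, hv⟩ : ∃ v, v = (-1 / 4) - t := ⟨_, rfl⟩
  have hu0 : 0 ≤ u := by rw [hu]; linarith
  have hv0 : 0 ≤ v := by rw [hv]; linarith
  have e : 4 * Fal t * (-FP t / 2 - F2 t / 4 + 5 / 2 * FM t) - (t + 1) * FB t ^ 2 =
    (740145267343360 / 65251782519) * u ^ 0 * v ^ 9 +
    (2904834057011200 / 17795940687) * u ^ 1 * v ^ 8 +
    (188046385043456000 / 195755347557) * u ^ 2 * v ^ 7 +
    (22743684573184000 / 9321683217) * u ^ 3 * v ^ 6 +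
    (90943616035840000 / 27965049651) * u ^ 4 * v ^ 5 +
    (6420158664320000 / 2542277241) * u ^ 5 * v ^ 4 +
    (11334211462400000 / 9321683217) * u ^ 6 * v ^ 3 +
    (24849390836000000 / 65251782519) * u ^ 7 * v ^ 2 +
    (1693295700000000 / 21750594173) * u ^ 8 * v ^ 1 +
    (179936875000000 / 21750594173) * u ^ 9 * v ^ 0 := by
    rw [hu, hv]; unfold Fal FP F2 FM FB; ring
  rw [e]; positivity

lemma posD0_3 (t : ℝ) (h1 : (-1 / 4) ≤ t) (h2 : t ≤ 0) :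
    0 ≤ 4 * Fal t * (-FP t / 2 - F2 t / 4 + 5 / 2 * FM t) - (t + 1) * FB t ^ 2 := by
  obtain ⟨u, hu⟩ : ∃ u, u = t - (-1 / 4) := ⟨_, rfl⟩
  obtain ⟨v, hv⟩ : ∃ v, v = 0 - t := ⟨_, rfl⟩
  have hu0 : 0 ≤ u := by rw [hu]; linarith
  have hv0 : 0 ≤ v := by rw [hv]; linarith
  have e : 4 * Fal t * (-FP t / 2 - F2 t / 4 + 5 / 2 * FM t) - (t + 1) * FB t ^ 2 =
    (92127680 / 539) * u ^ 0 * v ^ 9 +
    (802136064 / 539) * u ^ 1 * v ^ 8 +
    (51266206976 / 8085) * u ^ 2 * v ^ 7 +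
    (27182801920 / 1617) * u ^ 3 * v ^ 6 +
    (703958680576 / 24255) * u ^ 4 * v ^ 5 +
    (157529305088 / 4851) * u ^ 5 * v ^ 4 +
    (5315411968 / 231) * u ^ 6 * v ^ 3 +
    (34167209984 / 3465) * u ^ 7 * v ^ 2 +
    (11234738176 / 4851) * u ^ 8 * v ^ 1 +
    (614989824 / 2695) * u ^ 9 * v ^ 0 := by
    rw [hu, hv]; unfold Fal FP F2 FM FB; ring
  rw [e]; positivity

lemma posD0_4 (t : ℝ) (h1 : 0 ≤ t) (h2 : t ≤ (1 / 5)) :
    0 ≤ 4 * Fal t * (-FP t / 2 - F2 t / 4 + 5 / 2 * FM t) - (t + 1) * FB t ^ 2 := by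
  obtain ⟨u, hu⟩ : ∃ u, u = t - 0 := ⟨_, rfl⟩
  obtain ⟨v, hv⟩ : ∃ v, v = (1 / 5) - t := ⟨_, rfl⟩
  have hu0 : 0 ≤ u := by rw [hu]; linarith
  have hv0 : 0 ≤ v := by rw [hv]; linarith
  have e : 4 * Fal t * (-FP t / 2 - F2 t / 4 + 5 / 2 * FM t) - (t + 1) * FB t ^ 2 =
    (916406250 / 539) * u ^ 0 * v ^ 9 +
    (133295546875 / 9702) * u ^ 1 * v ^ 8 +
    (225812046875 / 4851) * u ^ 2 * v ^ 7 +
    (19693484375 / 231) * u ^ 3 * v ^ 6 +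
    (440446369375 / 4851) * u ^ 4 * v ^ 5 +
    (275434933750 / 4851) * u ^ 5 * v ^ 4 +
    (34365879875 / 1617) * u ^ 6 * v ^ 3 +
    (1444006625 / 231) * u ^ 7 * v ^ 2 +
    (106253025 / 49) * u ^ 8 * v ^ 1 +
    (478167905 / 1078) * u ^ 9 * v ^ 0 := by
    rw [hu, hv]; unfold Fal FP F2 FM FB; ring
  rw [e]; positivity

lemma posD0_5 (t : ℝ) (h1 : (1 / 5) ≤ t) (h2 : t ≤ (7 / 20)) :
    0 ≤ 4 * Fal t * (-FP t / 2 - F2 t / 4 + 5 / 2 * FM t) - (t + 1) * FB t ^ 2 := by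
  obtain ⟨u, hu⟩ : ∃ u, u = t - (1 / 5) := ⟨_, rfl⟩
  obtain ⟨v, hv⟩ : ∃ v, v = (7 / 20) - t := ⟨_, rfl⟩
  have hu0 : 0 ≤ u := by rw [hu]; linarith
  have hv0 : 0 ≤ v := by rw [hv]; linarith
  have e : 4 * Fal t * (-FP t / 2 - F2 t / 4 + 5 / 2 * FM t) - (t + 1) * FB t ^ 2 =
    (62674423644160 / 10609137) * u ^ 0 * v ^ 9 +
    (28049260380160 / 392931) * u ^ 1 * v ^ 8 +
    (199504567255040 / 505197) * u ^ 2 * v ^ 7 +
    (1481097569976320 / 1178793) * u ^ 3 * v ^ 6 +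
    (973607645716480 / 392931) * u ^ 4 * v ^ 5 +
    (10971521245096960 / 3536379) * u ^ 5 * v ^ 4 +
    (1232248103106560 / 505197) * u ^ 6 * v ^ 3 +
    (149407358667520 / 130977) * u ^ 7 * v ^ 2 +
    (980083023553280 / 3536379) * u ^ 8 * v ^ 1 +
    (253365898425280 / 10609137) * u ^ 9 * v ^ 0 := by
    rw [hu, hv]; unfold Fal FP F2 FM FB; ring
  rw [e]; positivity

lemma posD0 (t : ℝ) (h1 : (-1) ≤ t) (h2 : t ≤ (7 / 20)) :
    0 ≤ 4 * Fal t * (-FP t / 2 - F2 t / 4 + 5 / 2 * FM t) - (t + 1) * FB t ^ 2 := by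
  rcases le_total t (-3 / 4) with h | h
  · exact posD0_0 t (by linarith) h
  rcases le_total t (-3 / 5) with h | h
  · exact posD0_1 t (by linarith) h
  rcases le_total t (-1 / 4) with h | h
  · exact posD0_2 t (by linarith) h
  rcases le_total t 0 with h | h
  · exact posD0_3 t (by linarith) h
  rcases le_total t (1 / 5) with h | h
  · exact posD0_4 t (by linarith) h
  exact posD0_5 t (by linarith) h2

lemma posD1_0 (t : ℝ) (h1 : (-1) ≤ t) (h2 : t ≤ (-3 / 4)) :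
    0 ≤ 4 * Fal t * (-FP t / 2 - F2 t / 4 - F5 t / 4 + 5 / 2 * FM t) - (t + 1) * FB t ^ 2 := by
  obtain ⟨u, hu⟩ : ∃ u, u = t - (-1) := ⟨_, rfl⟩
  obtain ⟨v, hv⟩ : ∃ v, v = (-3 / 4) - t := ⟨_, rfl⟩
  have hu0 : 0 ≤ u := by rw [hu]; linarith
  have hv0 : 0 ≤ v := by rw [hv]; linarith
  have e : 4 * Fal t * (-FP t / 2 - F2 t / 4 - F5 t / 4 + 5 / 2 * FM t) - (t + 1) * FB t ^ 2 =
    (3858497536 / 35) * u ^ 0 * v ^ 9 +
    (33244741632 / 49) * u ^ 1 * v ^ 8 +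
    (89341673472 / 49) * u ^ 2 * v ^ 7 +
    (3236270809088 / 1155) * u ^ 3 * v ^ 6 +
    (65646522548224 / 24255) * u ^ 4 * v ^ 5 +
    (13739370791936 / 8085) * u ^ 5 * v ^ 4 +
    (3356486758400 / 4851) * u ^ 6 * v ^ 3 +
    (284760279808 / 1617) * u ^ 7 * v ^ 2 +
    (88627857664 / 3465) * u ^ 8 * v ^ 1 +
    (272565952 / 165) * u ^ 9 * v ^ 0 := by
    rw [hu, hv]; unfold Fal FP F2 F5 FM FB; ring
  rw [e]; positivity

lemma posD1_1 (t : ℝ) (h1 : (-3 / 4) ≤ t) (h2 : t ≤ (-3 / 5)) :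
    0 ≤ 4 * Fal t * (-FP t / 2 - F2 t / 4 - F5 t / 4 + 5 / 2 * FM t) - (t + 1) * FB t ^ 2 := by
  obtain ⟨u, hu⟩ : ∃ u, u = t - (-3 / 4) := ⟨_, rfl⟩
  obtain ⟨v, hv⟩ : ∃ v, v = (-3 / 5) - t := ⟨_, rfl⟩
  have hu0 : 0 ≤ u := by rw [hu]; linarith
  have hv0 : 0 ≤ v := by rw [hv]; linarith
  have e : 4 * Fal t * (-FP t / 2 - F2 t / 4 - F5 t / 4 + 5 / 2 * FM t) - (t + 1) * FB t ^ 2 =
    (106471075000000 / 649539) * u ^ 0 * v ^ 9 +
    (3808232980000000 / 4546773) * u ^ 1 * v ^ 8 +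
    (60633407420000000 / 31827411) * u ^ 2 * v ^ 7 +
    (91279566150400000 / 31827411) * u ^ 3 * v ^ 6 +
    (16969062035840000 / 4546773) * u ^ 4 * v ^ 5 +
    (136464589081600000 / 31827411) * u ^ 5 * v ^ 4 +
    (116225058987008000 / 31827411) * u ^ 6 * v ^ 3 +
    (63221378013184000 / 31827411) * u ^ 7 * v ^ 2 +
    (19259818319052800 / 31827411) * u ^ 8 * v ^ 1 +
    (2495636709048320 / 31827411) * u ^ 9 * v ^ 0 := by
    rw [hu, hv]; unfold Fal FP F2 F5 FM FB; ring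
  rw [e]; positivity

lemma posD1_2 (t : ℝ) (h1 : (-3 / 5) ≤ t) (h2 : t ≤ (-1 / 4)) :
    0 ≤ 4 * Fal t * (-FP t / 2 - F2 t / 4 - F5 t / 4 + 5 / 2 * FM t) - (t + 1) * FB t ^ 2 := by
  obtain ⟨u, hu⟩ : ∃ u, u = t - (-3 / 5) := ⟨_, rfl⟩
  obtain ⟨v, hv⟩ : ∃ v, v = (-1 / 4) - t := ⟨_, rfl⟩
  have hu0 : 0 ≤ u := by rw [hu]; linarith
  have hv0 : 0 ≤ v := by rw [hv]; linarith
  have e : 4 * Fal t * (-FP t / 2 - F2 t / 4 - F5 t / 4 + 5 / 2 * FM t) - (t + 1) * FB t ^ 2 =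
    (2495636709048320 / 65251782519) * u ^ 0 * v ^ 9 +
    (89788575580979200 / 195755347557) * u ^ 1 * v ^ 8 +
    (144071268505600000 / 65251782519) * u ^ 2 * v ^ 7 +
    (144844061258752000 / 27965049651) * u ^ 3 * v ^ 6 +
    (63268138132480000 / 9321683217) * u ^ 4 * v ^ 5 +
    (149848243803520000 / 27965049651) * u ^ 5 * v ^ 4 +
    (8232713644800000 / 3107227739) * u ^ 6 * v ^ 3 +
    (18059086812000000 / 21750594173) * u ^ 7 * v ^ 2 +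
    (3453508500000000 / 21750594173) * u ^ 8 * v ^ 1 +
    (322500875000000 / 21750594173) * u ^ 9 * v ^ 0 := by
    rw [hu, hv]; unfold Fal FP F2 F5 FM FB; ring
  rw [e]; positivity

lemma posD1_3 (t : ℝ) (h1 : (-1 / 4) ≤ t) (h2 : t ≤ 0) :
    0 ≤ 4 * Fal t * (-FP t / 2 - F2 t / 4 - F5 t / 4 + 5 / 2 * FM t) - (t + 1) * FB t ^ 2 := by
  obtain ⟨u, hu⟩ : ∃ u, u = t - (-1 / 4) := ⟨_, rfl⟩
  obtain ⟨v, hv⟩ : ∃ v, v = 0 - t := ⟨_, rfl⟩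
  have hu0 : 0 ≤ u := by rw [hu]; linarith
  have hv0 : 0 ≤ v := by rw [hv]; linarith
  have e : 4 * Fal t * (-FP t / 2 - F2 t / 4 - F5 t / 4 + 5 / 2 * FM t) - (t + 1) * FB t ^ 2 =
    (165120448 / 539) * u ^ 0 * v ^ 9 +
    (1284575232 / 539) * u ^ 1 * v ^ 8 +
    (315937536 / 35) * u ^ 2 * v ^ 7 +
    (11806411776 / 539) * u ^ 3 * v ^ 6 +
    (124902919168 / 3465) * u ^ 4 * v ^ 5 +
    (21381918720 / 539) * u ^ 5 * v ^ 4 +
    (12431564800 / 441) * u ^ 6 * v ^ 3 +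
    (99138420736 / 8085) * u ^ 7 * v ^ 2 +
    (1300725760 / 441) * u ^ 8 * v ^ 1 +
    (115474432 / 385) * u ^ 9 * v ^ 0 := by
    rw [hu, hv]; unfold Fal FP F2 F5 FM FB; ring
  rw [e]; positivity

lemma posD1_4 (t : ℝ) (h1 : 0 ≤ t) (h2 : t ≤ (1 / 5)) :
    0 ≤ 4 * Fal t * (-FP t / 2 - F2 t / 4 - F5 t / 4 + 5 / 2 * FM t) - (t + 1) * FB t ^ 2 := by
  obtain ⟨u, hu⟩ : ∃ u, u = t - 0 := ⟨_, rfl⟩
  obtain ⟨v, hv⟩ : ∃ v, v = (1 / 5) - t := ⟨_, rfl⟩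
  have hu0 : 0 ≤ u := by rw [hu]; linarith
  have hv0 : 0 ≤ v := by rw [hv]; linarith
  have e : 4 * Fal t * (-FP t / 2 - F2 t / 4 - F5 t / 4 + 5 / 2 * FM t) - (t + 1) * FB t ^ 2 =
    (344140625 / 154) * u ^ 0 * v ^ 9 +
    (90332734375 / 4851) * u ^ 1 * v ^ 8 +
    (15238140625 / 231) * u ^ 2 * v ^ 7 +
    (625973546875 / 4851) * u ^ 3 * v ^ 6 +
    (82028827500 / 539) * u ^ 4 * v ^ 5 +
    (49437786875 / 441) * u ^ 5 * v ^ 4 +
    (28711107875 / 539) * u ^ 6 * v ^ 3 +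
    (9560393625 / 539) * u ^ 7 * v ^ 2 +
    (4845435825 / 1078) * u ^ 8 * v ^ 1 +
    (348850580 / 539) * u ^ 9 * v ^ 0 := by
    rw [hu, hv]; unfold Fal FP F2 F5 FM FB; ring
  rw [e]; positivity

lemma posD1_5 (t : ℝ) (h1 : (1 / 5) ≤ t) (h2 : t ≤ (7 / 20)) :
    0 ≤ 4 * Fal t * (-FP t / 2 - F2 t / 4 - F5 t / 4 + 5 / 2 * FM t) - (t + 1) * FB t ^ 2 := by
  obtain ⟨u, hu⟩ : ∃ u, u = t - (1 / 5) := ⟨_, rfl⟩
  obtain ⟨v, hv⟩ : ∃ v, v = (7 / 20) - t := ⟨_, rfl⟩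
  have hu0 : 0 ≤ u := by rw [hu]; linarith
  have hv0 : 0 ≤ v := by rw [hv]; linarith
  have e : 4 * Fal t * (-FP t / 2 - F2 t / 4 - F5 t / 4 + 5 / 2 * FM t) - (t + 1) * FB t ^ 2 =
    (91449086443520 / 10609137) * u ^ 0 * v ^ 9 +
    (35703606968320 / 392931) * u ^ 1 * v ^ 8 +
    (535937672888320 / 1178793) * u ^ 2 * v ^ 7 +
    (436920277688320 / 321489) * u ^ 3 * v ^ 6 +
    (3049747741204480 / 1178793) * u ^ 4 * v ^ 5 +
    (3747433675863040 / 1178793) * u ^ 5 * v ^ 4 +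
    (8755151917475840 / 3536379) * u ^ 6 * v ^ 3 +
    (194109900647680 / 168399) * u ^ 7 * v ^ 2 +
    (9985104400640 / 35721) * u ^ 8 * v ^ 1 +
    (5213386082240 / 216513) * u ^ 9 * v ^ 0 := by
    rw [hu, hv]; unfold Fal FP F2 F5 FM FB; ring
  rw [e]; positivity

lemma posD1 (t : ℝ) (h1 : (-1) ≤ t) (h2 : t ≤ (7 / 20)) :
    0 ≤ 4 * Fal t * (-FP t / 2 - F2 t / 4 - F5 t / 4 + 5 / 2 * FM t) - (t + 1) * FB t ^ 2 := by
  rcases le_total t (-3 / 4) with h | h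
  · exact posD1_0 t (by linarith) h
  rcases le_total t (-3 / 5) with h | h
  · exact posD1_1 t (by linarith) h
  rcases le_total t (-1 / 4) with h | h
  · exact posD1_2 t (by linarith) h
  rcases le_total t 0 with h | h
  · exact posD1_3 t (by linarith) h
  rcases le_total t (1 / 5) with h | h
  · exact posD1_4 t (by linarith) h
  exact posD1_5 t (by linarith) h2

lemma posV1_0 (t : ℝ) (h1 : (-1) ≤ t) (h2 : t ≤ (-1 / 4)) :
    0 ≤ F2 t / 4 - FP t / 2 - F5 t / 4 := by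
  obtain ⟨u, hu⟩ : ∃ u, u = t - (-1) := ⟨_, rfl⟩
  obtain ⟨v, hv⟩ : ∃ v, v = (-1 / 4) - t := ⟨_, rfl⟩
  have hu0 : 0 ≤ u := by rw [hu]; linarith
  have hv0 : 0 ≤ v := by rw [hv]; linarith
  have e : F2 t / 4 - FP t / 2 - F5 t / 4 =
    (45056 / 18225) * u ^ 0 * v ^ 7 +
    (64768 / 2835) * u ^ 1 * v ^ 6 +
    (123776 / 8505) * u ^ 2 * v ^ 5 +
    (282016 / 40095) * u ^ 3 * v ^ 4 +
    (10592 / 945) * u ^ 4 * v ^ 3 +
    (509072 / 66825) * u ^ 5 * v ^ 2 +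
    (82496 / 40095) * u ^ 6 * v ^ 1 +
    (6616 / 31185) * u ^ 7 * v ^ 0 := by
    rw [hu, hv]; unfold FP F2 F5; ring
  rw [e]; positivity

lemma posV1_1 (t : ℝ) (h1 : (-1 / 4) ≤ t) (h2 : t ≤ (7 / 20)) :
    0 ≤ F2 t / 4 - FP t / 2 - F5 t / 4 := by
  obtain ⟨u, hu⟩ : ∃ u, u = t - (-1 / 4) := ⟨_, rfl⟩
  obtain ⟨v, hv⟩ : ∃ v, v = (7 / 20) - t := ⟨_, rfl⟩
  have hu0 : 0 ≤ u := by rw [hu]; linarith
  have hv0 : 0 ≤ v := by rw [hv]; linarith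
  have e : F2 t / 4 - FP t / 2 - F5 t / 4 =
    (12921875 / 12773376) * u ^ 0 * v ^ 7 +
    (80434375 / 16422912) * u ^ 1 * v ^ 6 +
    (40029875 / 5474304) * u ^ 2 * v ^ 5 +
    (29428375 / 4257792) * u ^ 3 * v ^ 4 +
    (3007564625 / 114960384) * u ^ 4 * v ^ 3 +
    (1564924385 / 38320128) * u ^ 5 * v ^ 2 +
    (167667757 / 12773376) * u ^ 6 * v ^ 1 +
    (1369579067 / 574801920) * u ^ 7 * v ^ 0 := by
    rw [hu, hv]; unfold FP F2 F5; ring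
  rw [e]; positivity

lemma posV1 (t : ℝ) (h1 : (-1) ≤ t) (h2 : t ≤ (7 / 20)) :
    0 ≤ F2 t / 4 - FP t / 2 - F5 t / 4 := by
  rcases le_total t (-1 / 4) with h | h
  · exact posV1_0 t (by linarith) h
  exact posV1_1 t (by linarith) h2

lemma posV2_0 (t : ℝ) (h1 : (-1) ≤ t) (h2 : t ≤ (-3 / 5)) :
    0 ≤ F2 t / 4 - FP t / 2 + F5 t / 2 := by
  obtain ⟨u, hu⟩ : ∃ u, u = t - (-1) := ⟨_, rfl⟩
  obtain ⟨v, hv⟩ : ∃ v, v = (-3 / 5) - t := ⟨_, rfl⟩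
  have hu0 : 0 ≤ u := by rw [hu]; linarith
  have hv0 : 0 ≤ v := by rw [hv]; linarith
  have e : F2 t / 4 - FP t / 2 + F5 t / 2 =
    (84375 / 2048) * u ^ 0 * v ^ 7 +
    (24160625 / 14336) * u ^ 1 * v ^ 6 +
    (71453625 / 14336) * u ^ 2 * v ^ 5 +
    (2910876625 / 473088) * u ^ 3 * v ^ 4 +
    (623963625 / 157696) * u ^ 4 * v ^ 3 +
    (658599835 / 473088) * u ^ 5 * v ^ 2 +
    (40451897 / 157696) * u ^ 6 * v ^ 1 +
    (47517839 / 2365440) * u ^ 7 * v ^ 0 := by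
    rw [hu, hv]; unfold FP F2 F5; ring
  rw [e]; positivity

lemma posV2_1 (t : ℝ) (h1 : (-3 / 5) ≤ t) (h2 : t ≤ (-1 / 4)) :
    0 ≤ F2 t / 4 - FP t / 2 + F5 t / 2 := by
  obtain ⟨u, hu⟩ : ∃ u, u = t - (-3 / 5) := ⟨_, rfl⟩
  obtain ⟨v, hv⟩ : ∃ v, v = (-1 / 4) - t := ⟨_, rfl⟩
  have hu0 : 0 ≤ u := by rw [hu]; linarith
  have hv0 : 0 ≤ v := by rw [hv]; linarith
  have e : F2 t / 4 - FP t / 2 + F5 t / 2 =
    (48658267136 / 951192165) * u ^ 0 * v ^ 7 +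
    (904440576 / 9058973) * u ^ 1 * v ^ 6 +
    (1649518720 / 27176919) * u ^ 2 * v ^ 5 +
    (3226340000 / 9058973) * u ^ 3 * v ^ 4 +
    (2932156000 / 3882417) * u ^ 4 * v ^ 3 +
    (5545446000 / 9058973) * u ^ 5 * v ^ 2 +
    (1981600000 / 9058973) * u ^ 6 * v ^ 1 +
    (1869375000 / 63412811) * u ^ 7 * v ^ 0 := by
    rw [hu, hv]; unfold FP F2 F5; ring
  rw [e]; positivity

lemma posV2_2 (t : ℝ) (h1 : (-1 / 4) ≤ t) (h2 : t ≤ 0) :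
    0 ≤ F2 t / 4 - FP t / 2 + F5 t / 2 := by
  obtain ⟨u, hu⟩ : ∃ u, u = t - (-1 / 4) := ⟨_, rfl⟩
  obtain ⟨v, hv⟩ : ∃ v, v = 0 - t := ⟨_, rfl⟩
  have hu0 : 0 ≤ u := by rw [hu]; linarith
  have hv0 : 0 ≤ v := by rw [hv]; linarith
  have e : F2 t / 4 - FP t / 2 + F5 t / 2 =
    (23928 / 77) * u ^ 0 * v ^ 7 +
    (801568 / 385) * u ^ 1 * v ^ 6 +
    (10643664 / 1925) * u ^ 2 * v ^ 5 +
    (8671648 / 1155) * u ^ 3 * v ^ 4 +
    (2238816 / 385) * u ^ 4 * v ^ 3 +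
    (471808 / 165) * u ^ 5 * v ^ 2 +
    (365312 / 385) * u ^ 6 * v ^ 1 +
    (137216 / 825) * u ^ 7 * v ^ 0 := by
    rw [hu, hv]; unfold FP F2 F5; ring
  rw [e]; positivity

lemma posV2_3 (t : ℝ) (h1 : 0 ≤ t) (h2 : t ≤ (7 / 20)) :
    0 ≤ F2 t / 4 - FP t / 2 + F5 t / 2 := by
  obtain ⟨u, hu⟩ : ∃ u, u = t - 0 := ⟨_, rfl⟩
  obtain ⟨v, hv⟩ : ∃ v, v = (7 / 20) - t := ⟨_, rfl⟩
  have hu0 : 0 ≤ u := by rw [hu]; linarith
  have hv0 : 0 ≤ v := by rw [hv]; linarith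
  have e : F2 t / 4 - FP t / 2 + F5 t / 2 =
    (428800000 / 27176919) * u ^ 0 * v ^ 7 +
    (1259680000 / 9058973) * u ^ 1 * v ^ 6 +
    (16999648000 / 27176919) * u ^ 2 * v ^ 5 +
    (14606356000 / 9058973) * u ^ 3 * v ^ 4 +
    (62742268000 / 27176919) * u ^ 4 * v ^ 3 +
    (15682856880 / 9058973) * u ^ 5 * v ^ 2 +
    (5631322720 / 9058973) * u ^ 6 * v ^ 1 +
    (651952152 / 6470695) * u ^ 7 * v ^ 0 := by
    rw [hu, hv]; unfold FP F2 F5; ring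
  rw [e]; positivity

lemma posV2 (t : ℝ) (h1 : (-1) ≤ t) (h2 : t ≤ (7 / 20)) :
    0 ≤ F2 t / 4 - FP t / 2 + F5 t / 2 := by
  rcases le_total t (-3 / 5) with h | h
  · exact posV2_0 t (by linarith) h
  rcases le_total t (-1 / 4) with h | h
  · exact posV2_1 t (by linarith) h
  rcases le_total t 0 with h | h
  · exact posV2_2 t (by linarith) h
  exact posV2_3 t (by linarith) h2

lemma posIm_0 (t : ℝ) (h1 : (7 / 20) ≤ t) (h2 : t ≤ (79 / 128)) :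
    0 ≤ FA t - FE t / 8 := by
  obtain ⟨u, hu⟩ : ∃ u, u = t - (7 / 20) := ⟨_, rfl⟩
  obtain ⟨v, hv⟩ : ∃ v, v = (79 / 128) - t := ⟨_, rfl⟩
  have hu0 : 0 ≤ u := by rw [hu]; linarith
  have hv0 : 0 ≤ v := by rw [hv]; linarith
  have e : FA t - FE t / 8 =
    (6299394173304832 / 2778012227169) * u ^ 0 * v ^ 6 +
    (2181059060915240960 / 58338256770549) * u ^ 1 * v ^ 5 +
    (11257524370014208000 / 58338256770549) * u ^ 2 * v ^ 4 +
    (27441410218655744000 / 58338256770549) * u ^ 3 * v ^ 3 +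
    (35113508001536000000 / 58338256770549) * u ^ 4 * v ^ 2 +
    (22899298796800000000 / 58338256770549) * u ^ 5 * v ^ 1 +
    (860432370190250000 / 8334036681507) * u ^ 6 * v ^ 0 := by
    rw [hu, hv]; unfold FA FE; ring
  rw [e]; positivity

lemma posIm (t : ℝ) (h1 : (7 / 20) ≤ t) (h2 : t ≤ (79 / 128)) :
    0 ≤ FA t - FE t / 8 := by
  exact posIm_0 t (by linarith) h2

lemma posJm0_0 (t : ℝ) (h1 : (7 / 20) ≤ t) (h2 : t ≤ (1 / 2)) :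
    0 ≤ FA t / 512 + FE t / 256 - FE t / 4096 - FP t / 2 - F2 t / 4 := by
  obtain ⟨u, hu⟩ : ∃ u, u = t - (7 / 20) := ⟨_, rfl⟩
  obtain ⟨v, hv⟩ : ∃ v, v = (1 / 2) - t := ⟨_, rfl⟩
  have hu0 : 0 ≤ u := by rw [hu]; linarith
  have hv0 : 0 ≤ v := by rw [hv]; linarith
  have e : FA t / 512 + FE t / 256 - FE t / 4096 - FP t / 2 - F2 t / 4 =
    (316969329581 / 6735960) * u ^ 0 * v ^ 7 +
    (399757874407 / 1347192) * u ^ 1 * v ^ 6 +
    (57913272475 / 74844) * u ^ 2 * v ^ 5 +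
    (180659480125 / 168399) * u ^ 3 * v ^ 4 +
    (142403919250 / 168399) * u ^ 4 * v ^ 3 +
    (7028613250 / 18711) * u ^ 5 * v ^ 2 +
    (14764182500 / 168399) * u ^ 6 * v ^ 1 +
    (1509950000 / 168399) * u ^ 7 * v ^ 0 := by
    rw [hu, hv]; unfold FP F2 FA FE; ring
  rw [e]; positivity

lemma posJm0_1 (t : ℝ) (h1 : (1 / 2) ≤ t) (h2 : t ≤ (79 / 128)) :
    0 ≤ FA t / 512 + FE t / 256 - FE t / 4096 - FP t / 2 - F2 t / 4 := by
  obtain ⟨u, hu⟩ : ∃ u, u = t - (1 / 2) := ⟨_, rfl⟩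
  obtain ⟨v, hv⟩ : ∃ v, v = (79 / 128) - t := ⟨_, rfl⟩
  have hu0 : 0 ≤ u := by rw [hu]; linarith
  have hv0 : 0 ≤ v := by rw [hv]; linarith
  have e : FA t / 512 + FE t / 256 - FE t / 4096 - FP t / 2 - F2 t / 4 =
    (16602075823603712 / 328904296875) * u ^ 0 * v ^ 7 +
    (80183770946207744 / 328904296875) * u ^ 1 * v ^ 6 +
    (6491989298118656 / 12181640625) * u ^ 2 * v ^ 5 +
    (56472074624958464 / 65780859375) * u ^ 3 * v ^ 4 +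
    (11544432993861632 / 9397265625) * u ^ 4 * v ^ 3 +
    (15442816962270976 / 12181640625) * u ^ 5 * v ^ 2 +
    (239644990743270044 / 328904296875) * u ^ 6 * v ^ 1 +
    (8012103670827596 / 46986328125) * u ^ 7 * v ^ 0 := by
    rw [hu, hv]; unfold FP F2 FA FE; ring
  rw [e]; positivity

lemma posJm0 (t : ℝ) (h1 : (7 / 20) ≤ t) (h2 : t ≤ (79 / 128)) :
    0 ≤ FA t / 512 + FE t / 256 - FE t / 4096 - FP t / 2 - F2 t / 4 := by
  rcases le_total t (1 / 2) with h | h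
  · exact posJm0_0 t (by linarith) h
  exact posJm0_1 t (by linarith) h2

lemma posJm1_0 (t : ℝ) (h1 : (7 / 20) ≤ t) (h2 : t ≤ (1 / 2)) :
    0 ≤ FA t / 512 + FE t / 256 - FE t / 4096 - FP t / 2 - F2 t / 4 - F5 t / 4 := by
  obtain ⟨u, hu⟩ : ∃ u, u = t - (7 / 20) := ⟨_, rfl⟩
  obtain ⟨v, hv⟩ : ∃ v, v = (1 / 2) - t := ⟨_, rfl⟩
  have hu0 : 0 ≤ u := by rw [hu]; linarith
  have hv0 : 0 ≤ v := by rw [hv]; linarith
  have e : FA t / 512 + FE t / 256 - FE t / 4096 - FP t / 2 - F2 t / 4 - F5 t / 4 =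
    (319433975341 / 6735960) * u ^ 0 * v ^ 7 +
    (403680325607 / 1347192) * u ^ 1 * v ^ 6 +
    (25179801575 / 32076) * u ^ 2 * v ^ 5 +
    (184920240125 / 168399) * u ^ 3 * v ^ 4 +
    (21159902750 / 24057) * u ^ 4 * v ^ 3 +
    (22544639750 / 56133) * u ^ 5 * v ^ 2 +
    (2353397500 / 24057) * u ^ 6 * v ^ 1 +
    (1757950000 / 168399) * u ^ 7 * v ^ 0 := by
    rw [hu, hv]; unfold FP F2 F5 FA FE; ring
  rw [e]; positivity

lemma posJm1_1 (t : ℝ) (h1 : (1 / 2) ≤ t) (h2 : t ≤ (79 / 128)) :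
    0 ≤ FA t / 512 + FE t / 256 - FE t / 4096 - FP t / 2 - F2 t / 4 - F5 t / 4 := by
  obtain ⟨u, hu⟩ : ∃ u, u = t - (1 / 2) := ⟨_, rfl⟩
  obtain ⟨v, hv⟩ : ∃ v, v = (79 / 128) - t := ⟨_, rfl⟩
  have hu0 : 0 ≤ u := by rw [hu]; linarith
  have hv0 : 0 ≤ v := by rw [hv]; linarith
  have e : FA t / 512 + FE t / 256 - FE t / 4096 - FP t / 2 - F2 t / 4 - F5 t / 4 =
    (19328864660488192 / 328904296875) * u ^ 0 * v ^ 7 +
    (14214009582518272 / 46986328125) * u ^ 1 * v ^ 6 +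
    (76463051179556864 / 109634765625) * u ^ 2 * v ^ 5 +
    (6444183279632384 / 5980078125) * u ^ 3 * v ^ 4 +
    (88139804721577984 / 65780859375) * u ^ 4 * v ^ 3 +
    (134281360259174144 / 109634765625) * u ^ 5 * v ^ 2 +
    (216022291370434204 / 328904296875) * u ^ 6 * v ^ 1 +
    (632021063417876 / 4271484375) * u ^ 7 * v ^ 0 := by
    rw [hu, hv]; unfold FP F2 F5 FA FE; ring
  rw [e]; positivity

lemma posJm1 (t : ℝ) (h1 : (7 / 20) ≤ t) (h2 : t ≤ (79 / 128)) :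
    0 ≤ FA t / 512 + FE t / 256 - FE t / 4096 - FP t / 2 - F2 t / 4 - F5 t / 4 := by
  rcases le_total t (1 / 2) with h | h
  · exact posJm1_0 t (by linarith) h
  exact posJm1_1 t (by linarith) h2

lemma posKm1_0 (t : ℝ) (h1 : (7 / 20) ≤ t) (h2 : t ≤ (79 / 128)) :
    0 ≤ F2 t / 4 - FP t / 2 - F5 t / 4 - FA t / 512 + FE t / 4096 := by
  obtain ⟨u, hu⟩ : ∃ u, u = t - (7 / 20) := ⟨_, rfl⟩
  obtain ⟨v, hv⟩ : ∃ v, v = (79 / 128) - t := ⟨_, rfl⟩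
  have hu0 : 0 ≤ u := by rw [hu]; linarith
  have hv0 : 0 ≤ v := by rw [hv]; linarith
  have e : F2 t / 4 - FP t / 2 - F5 t / 4 - FA t / 512 + FE t / 4096 =
    (367372276993567490048 / 548671304927013345) * u ^ 0 * v ^ 7 +
    (545236276269427982336 / 109734260985402669) * u ^ 1 * v ^ 6 +
    (17901566162580275200 / 1108426878640431) * u ^ 2 * v ^ 5 +
    (487533085825040384000 / 15676322997914667) * u ^ 3 * v ^ 4 +
    (401630354710180352000 / 9975841907763879) * u ^ 4 * v ^ 3 +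
    (16167050527284224000 / 451581320927583) * u ^ 5 * v ^ 2 +
    (308859173083491902500 / 15676322997914667) * u ^ 6 * v ^ 1 +
    (7012084317084212500 / 1425120272537697) * u ^ 7 * v ^ 0 := by
    rw [hu, hv]; unfold FP F2 F5 FA FE; ring
  rw [e]; positivity

lemma posKm1 (t : ℝ) (h1 : (7 / 20) ≤ t) (h2 : t ≤ (79 / 128)) :
    0 ≤ F2 t / 4 - FP t / 2 - F5 t / 4 - FA t / 512 + FE t / 4096 := by
  exact posKm1_0 t (by linarith) h2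

lemma posKm2_0 (t : ℝ) (h1 : (7 / 20) ≤ t) (h2 : t ≤ (79 / 128)) :
    0 ≤ F2 t / 4 - FP t / 2 + F5 t / 2 - FA t / 512 + FE t / 4096 := by
  obtain ⟨u, hu⟩ : ∃ u, u = t - (7 / 20) := ⟨_, rfl⟩
  obtain ⟨v, hv⟩ : ∃ v, v = (79 / 128) - t := ⟨_, rfl⟩
  have hu0 : 0 ≤ u := by rw [hu]; linarith
  have hv0 : 0 ≤ v := by rw [hv]; linarith
  have e : F2 t / 4 - FP t / 2 + F5 t / 2 - FA t / 512 + FE t / 4096 =
    (16989843050387734528 / 26127204996524445) * u ^ 0 * v ^ 7 +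
    (47891444076092850176 / 9975841907763879) * u ^ 1 * v ^ 6 +
    (559945779058206310400 / 36578086995134223) * u ^ 2 * v ^ 5 +
    (350046031022784512000 / 12192695665044741) * u ^ 3 * v ^ 4 +
    (4028167050968540672000 / 109734260985402669) * u ^ 4 * v ^ 3 +
    (1220970093352223744000 / 36578086995134223) * u ^ 5 * v ^ 2 +
    (707530345954210172500 / 36578086995134223) * u ^ 6 * v ^ 1 +
    (80445027404273087500 / 15676322997914667) * u ^ 7 * v ^ 0 := by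
    rw [hu, hv]; unfold FP F2 F5 FA FE; ring
  rw [e]; positivity

lemma posKm2 (t : ℝ) (h1 : (7 / 20) ≤ t) (h2 : t ≤ (79 / 128)) :
    0 ≤ F2 t / 4 - FP t / 2 + F5 t / 2 - FA t / 512 + FE t / 4096 := by
  exact posKm2_0 t (by linarith) h2

lemma posIp_0 (t : ℝ) (h1 : (7 / 20) ≤ t) (h2 : t ≤ (79 / 128)) :
    0 ≤ FA t + FE t / 8 := by
  obtain ⟨u, hu⟩ : ∃ u, u = t - (7 / 20) := ⟨_, rfl⟩
  obtain ⟨v, hv⟩ : ∃ v, v = (79 / 128) - t := ⟨_, rfl⟩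
  have hu0 : 0 ≤ u := by rw [hu]; linarith
  have hv0 : 0 ≤ v := by rw [hv]; linarith
  have e : FA t + FE t / 8 =
    (152182837464793088 / 2778012227169) * u ^ 0 * v ^ 6 +
    (25932057396945879040 / 58338256770549) * u ^ 1 * v ^ 5 +
    (12429016344559616000 / 8334036681507) * u ^ 2 * v ^ 4 +
    (154480381000155136000 / 58338256770549) * u ^ 3 * v ^ 3 +
    (153092378111027200000 / 58338256770549) * u ^ 4 * v ^ 2 +
    (80280669669632000000 / 58338256770549) * u ^ 5 * v ^ 1 +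
    (2485821949789750000 / 8334036681507) * u ^ 6 * v ^ 0 := by
    rw [hu, hv]; unfold FA FE; ring
  rw [e]; positivity

lemma posIp (t : ℝ) (h1 : (7 / 20) ≤ t) (h2 : t ≤ (79 / 128)) :
    0 ≤ FA t + FE t / 8 := by
  exact posIp_0 t (by linarith) h2

lemma posJp0_0 (t : ℝ) (h1 : (7 / 20) ≤ t) (h2 : t ≤ (79 / 128)) :
    0 ≤ FA t / 512 + FE t / 256 + FE t / 4096 - FP t / 2 - F2 t / 4 := by
  obtain ⟨u, hu⟩ : ∃ u, u = t - (7 / 20) := ⟨_, rfl⟩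
  obtain ⟨v, hv⟩ : ∃ v, v = (79 / 128) - t := ⟨_, rfl⟩
  have hu0 : 0 ≤ u := by rw [hu]; linarith
  have hv0 : 0 ≤ v := by rw [hv]; linarith
  have e : FA t / 512 + FE t / 256 + FE t / 4096 - FP t / 2 - F2 t / 4 =
    (1993230568141698891776 / 1646013914781040035) * u ^ 0 * v ^ 7 +
    (2675410438162902679552 / 329202782956208007) * u ^ 1 * v ^ 6 +
    (2487955391526102630400 / 109734260985402669) * u ^ 2 * v ^ 5 +
    (11411836564169424896000 / 329202782956208007) * u ^ 3 * v ^ 4 +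
    (10820842174488687104000 / 329202782956208007) * u ^ 4 * v ^ 3 +
    (2307972305255753728000 / 109734260985402669) * u ^ 5 * v ^ 2 +
    (2973411029177265872500 / 329202782956208007) * u ^ 6 * v ^ 1 +
    (92085144129815612500 / 47028968993744001) * u ^ 7 * v ^ 0 := by
    rw [hu, hv]; unfold FP F2 FA FE; ring
  rw [e]; positivity

lemma posJp0 (t : ℝ) (h1 : (7 / 20) ≤ t) (h2 : t ≤ (79 / 128)) :
    0 ≤ FA t / 512 + FE t / 256 + FE t / 4096 - FP t / 2 - F2 t / 4 := by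
  exact posJp0_0 t (by linarith) h2

lemma posJp1_0 (t : ℝ) (h1 : (7 / 20) ≤ t) (h2 : t ≤ (79 / 128)) :
    0 ≤ FA t / 512 + FE t / 256 + FE t / 4096 - FP t / 2 - F2 t / 4 - F5 t / 4 := by
  obtain ⟨u, hu⟩ : ∃ u, u = t - (7 / 20) := ⟨_, rfl⟩
  obtain ⟨v, hv⟩ : ∃ v, v = (79 / 128) - t := ⟨_, rfl⟩
  have hu0 : 0 ≤ u := by rw [hu]; linarith
  have hv0 : 0 ≤ v := by rw [hv]; linarith
  have e : FA t / 512 + FE t / 256 + FE t / 4096 - FP t / 2 - F2 t / 4 - F5 t / 4 =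
    (2003816141077123956736 / 1646013914781040035) * u ^ 0 * v ^ 7 +
    (2693840829595309309952 / 329202782956208007) * u ^ 1 * v ^ 6 +
    (32711185660169420800 / 1425120272537697) * u ^ 2 * v ^ 5 +
    (11674153885739646976000 / 329202782956208007) * u ^ 3 * v ^ 4 +
    (1019146275030193664000 / 29927525723291637) * u ^ 4 * v ^ 3 +
    (2396533304613552128000 / 109734260985402669) * u ^ 5 * v ^ 2 +
    (3012834202899078672500 / 329202782956208007) * u ^ 6 * v ^ 1 +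
    (8070276746678987500 / 4275360817613091) * u ^ 7 * v ^ 0 := by
    rw [hu, hv]; unfold FP F2 F5 FA FE; ring
  rw [e]; positivity

lemma posJp1 (t : ℝ) (h1 : (7 / 20) ≤ t) (h2 : t ≤ (79 / 128)) :
    0 ≤ FA t / 512 + FE t / 256 + FE t / 4096 - FP t / 2 - F2 t / 4 - F5 t / 4 := by
  exact posJp1_0 t (by linarith) h2

lemma posKp1_0 (t : ℝ) (h1 : (7 / 20) ≤ t) (h2 : t ≤ (79 / 128)) :
    0 ≤ F2 t / 4 - FP t / 2 - F5 t / 4 - FA t / 512 - FE t / 4096 := by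
  obtain ⟨u, hu⟩ : ∃ u, u = t - (7 / 20) := ⟨_, rfl⟩
  obtain ⟨v, hv⟩ : ∃ v, v = (79 / 128) - t := ⟨_, rfl⟩
  have hu0 : 0 ≤ u := by rw [hu]; linarith
  have hv0 : 0 ≤ v := by rw [hv]; linarith
  have e : F2 t / 4 - FP t / 2 - F5 t / 4 - FA t / 512 - FE t / 4096 =
    (156753055741481320448 / 548671304927013345) * u ^ 0 * v ^ 7 +
    (58845401632863158272 / 36578086995134223) * u ^ 1 * v ^ 6 +
    (12247786663601766400 / 3325280635921293) * u ^ 2 * v ^ 5 +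
    (624443889453498368000 / 109734260985402669) * u ^ 3 * v ^ 4 +
    (1513619898356224000 / 158346696948633) * u ^ 4 * v ^ 3 +
    (505796654874374144000 / 36578086995134223) * u ^ 5 * v ^ 2 +
    (1216576615046551442500 / 109734260985402669) * u ^ 6 * v ^ 1 +
    (1660115780861612500 / 475040090845899) * u ^ 7 * v ^ 0 := by
    rw [hu, hv]; unfold FP F2 F5 FA FE; ring
  rw [e]; positivity

lemma posKp1 (t : ℝ) (h1 : (7 / 20) ≤ t) (h2 : t ≤ (79 / 128)) :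
    0 ≤ F2 t / 4 - FP t / 2 - F5 t / 4 - FA t / 512 - FE t / 4096 := by
  exact posKp1_0 t (by linarith) h2

lemma posKp2_0 (t : ℝ) (h1 : (7 / 20) ≤ t) (h2 : t ≤ (79 / 128)) :
    0 ≤ F2 t / 4 - FP t / 2 + F5 t / 2 - FA t / 512 - FE t / 4096 := by
  obtain ⟨u, hu⟩ : ∃ u, u = t - (7 / 20) := ⟨_, rfl⟩
  obtain ⟨v, hv⟩ : ∃ v, v = (79 / 128) - t := ⟨_, rfl⟩
  have hu0 : 0 ≤ u := by rw [hu]; linarith
  have hv0 : 0 ≤ v := by rw [hv]; linarith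
  have e : F2 t / 4 - FP t / 2 + F5 t / 2 - FA t / 512 - FE t / 4096 =
    (6960356324097916928 / 26127204996524445) * u ^ 0 * v ^ 7 +
    (2053322252807569408 / 1425120272537697) * u ^ 1 * v ^ 6 +
    (103919748992676659200 / 36578086995134223) * u ^ 2 * v ^ 5 +
    (40236285320364032000 / 12192695665044741) * u ^ 3 * v ^ 4 +
    (659171738717420032000 / 109734260985402669) * u ^ 4 * v ^ 3 +
    (417235655516575744000 / 36578086995134223) * u ^ 5 * v ^ 2 +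
    (392384480441579547500 / 36578086995134223) * u ^ 6 * v ^ 1 +
    (58095920684779962500 / 15676322997914667) * u ^ 7 * v ^ 0 := by
    rw [hu, hv]; unfold FP F2 F5 FA FE; ring
  rw [e]; positivity

lemma posKp2 (t : ℝ) (h1 : (7 / 20) ≤ t) (h2 : t ≤ (79 / 128)) :
    0 ≤ F2 t / 4 - FP t / 2 + F5 t / 2 - FA t / 512 - FE t / 4096 := by
  exact posKp2_0 t (by linarith) h2

end Pool.Agent.J6H87.AKN
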