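import Pool.Agent.J6H87.AKN.Local
import Pool.Agent.J6H87.AKN.Defs

/-!
The upper bound: the average kissing number in dimension eight is at most 240.
-/

set_option autoImplicit false

open Finset Metric

namespace Pool.Agent.J6H87.AKN

/-- the weights of the neighbours of a point add up to at most 240 -/
theorem local_pack {ι : Type*} (s : Finset ι) (c0 : EuclideanSpace ℝ (Fin 8)) (r0 : ℝ)
    (h0 : 0 < r0) (c : ι → EuclideanSpace ℝ (Fin 8)) (r : ι → ℝ) (hr : ∀ j ∈ s, 0 < r j)
    (ht : ∀ j ∈ s, dist c0 (c j) = r0 + r j)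
    (hd : ∀ j ∈ s, ∀ l ∈ s, j ≠ l → r j + r l ≤ dist (c j) (c l)) :
    ∑ j ∈ s, wgt (r j / (r0 + r j)) ≤ 240 := by
  have hn : ∀ j ∈ s, ∑ i, (c j i - c0 i) * (c j i - c0 i) = (r0 + r j) ^ 2 := by
    intro j hj
    rw [← ht j hj, dist_comm, dist_sq_eq]
  refine local_ineq s (fun j i => (c j i - c0 i) / (r0 + r j)) ?_ (fun j => r j / (r0 + r j)) ?_
  · intro j hj
    have h1 := hr j hj
    have h2 : r0 + r j ≠ 0 := by positivity
    have e : ∀ i, (c j i - c0 i) / (r0 + r j) * ((c j i - c0 i) / (r0 + r j)) =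
        (c j i - c0 i) * (c j i - c0 i) / (r0 + r j) ^ 2 := fun i => by
      field_simp
    rw [Finset.sum_congr rfl fun i _ => e i, ← Finset.sum_div, hn j hj]
    exact div_self (pow_ne_zero 2 h2)
  · intro j hj l hl hne
    have h1 := hr j hj
    have h2 := hr l hl
    have hA := hn j hj
    have hB := hn l hl
    have h3 : (r j + r l) ^ 2 ≤ dist (c j) (c l) ^ 2 :=
      pow_le_pow_left₀ (by positivity) (hd j hj l hl hne) 2
    rw [dist_sq_eq] at h3
    have e : ∑ i, (c j i - c l i) * (c j i - c l i) =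
        ∑ i, (c j i - c0 i) * (c j i - c0 i) + ∑ i, (c l i - c0 i) * (c l i - c0 i) -
          2 * ∑ i, (c j i - c0 i) * (c l i - c0 i) := by
      rw [Finset.mul_sum, ← Finset.sum_add_distrib, ← Finset.sum_sub_distrib]
      exact Finset.sum_congr rfl fun i _ => by ring
    rw [e, hA, hB] at h3
    have e2 : ∀ i, (c j i - c0 i) / (r0 + r j) * ((c l i - c0 i) / (r0 + r l)) =
        (c j i - c0 i) * (c l i - c0 i) / ((r0 + r j) * (r0 + r l)) := fun i => by
      rw [div_mul_div_comm]
    rw [Finset.sum_congr rfl fun i _ => e2 i, ← Finset.sum_div, div_mul_div_comm]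
    have hp : 0 < (r0 + r j) * (r0 + r l) := by positivity
    rw [div_le_iff₀ hp, sub_mul, one_mul, mul_assoc, div_mul_cancel₀ _ hp.ne']
    nlinarith [h3]

/-- the number of ordered tangent pairs is at most 240 times the number of balls -/
theorem sum_degree_le {N : ℕ} (P : Packing 8 N) [DecidableRel P.contact.Adj] :
    ((∑ i, P.contact.degree i : ℕ) : ℝ) ≤ 240 * N := by
  classical
  set w : Fin N → Fin N → ℝ := fun i j => wgt (P.r j / (P.r i + P.r j)) with hw
  have hdist : ∀ i j, i ≠ j → P.r i + P.r j ≤ dist (P.c i) (P.c j) := fun i j hij =>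
    (disj_iff _ _ (P.pos i) (P.pos j)).1 (P.disj i j hij)
  have h1 : ∀ i, ∑ j ∈ P.contact.neighborFinset i, w i j ≤ 240 := by
    intro i
    refine local_pack _ (P.c i) (P.r i) (P.pos i) P.c P.r (fun j _ => P.pos j) ?_ ?_
    · intro j hj
      exact ((P.contact.mem_neighborFinset i j).1 hj).2
    · intro j _ l _ hjl
      exact hdist j l hjl
  have h2 : ∑ i, ∑ j ∈ P.contact.neighborFinset i, w i j ≤ 240 * N := by
    calc ∑ i, ∑ j ∈ P.contact.neighborFinset i, w i j ≤ ∑ _i : Fin N, (240 : ℝ) :=
          Finset.sum_le_sum fun i _ => h1 i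
      _ = 240 * N := by simp [mul_comm]
  have h3 : ∀ i, ∑ j ∈ P.contact.neighborFinset i, w i j =
      ∑ j, if P.contact.Adj i j then w i j else 0 := by
    intro i
    rw [← Finset.sum_filter]
    refine Finset.sum_congr ?_ fun _ _ => rfl
    ext j; simp
  have h4 : ∑ i, ∑ j ∈ P.contact.neighborFinset i, w i j =
      ∑ i, ∑ j ∈ P.contact.neighborFinset i, w j i := by
    rw [Finset.sum_congr rfl fun i _ => h3 i, Finset.sum_comm]
    refine Finset.sum_congr rfl fun i _ => ?_
    have : ∑ j ∈ P.contact.neighborFinset i, w j i =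
        ∑ j, if P.contact.Adj i j then w j i else 0 := by
      rw [← Finset.sum_filter]
      refine Finset.sum_congr ?_ fun _ _ => rfl
      ext j; simp
    rw [this]
    refine Finset.sum_congr rfl fun j _ => ?_
    simp only [P.contact.adj_comm j i]
  have h5 : ∀ i j, w i j + w j i = 2 := by
    intro i j
    have hi := P.pos i
    have hj := P.pos j
    have e : P.r i / (P.r j + P.r i) = 1 - P.r j / (P.r i + P.r j) := by
      rw [add_comm (P.r j) (P.r i)]
      field_simp
      ring
    simp only [hw]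
    rw [e]
    exact wgt_add _
  have h6 : 2 * ∑ i, ∑ j ∈ P.contact.neighborFinset i, w i j =
      2 * ((∑ i, P.contact.degree i : ℕ) : ℝ) := by
    rw [two_mul]
    nth_rewrite 2 [h4]
    rw [← Finset.sum_add_distrib]
    push_cast
    rw [Finset.mul_sum]
    refine Finset.sum_congr rfl fun i _ => ?_
    rw [← Finset.sum_add_distrib, Finset.sum_congr rfl fun j _ => h5 i j]
    simp [mul_comm]
  linarith

lemma ncard_edges {N : ℕ} (P : Packing 8 N) [DecidableRel P.contact.Adj] :
    P.contact.edgeSet.ncard = P.contact.edgeFinset.card := by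
  classical
  rw [SimpleGraph.edgeFinset, Set.ncard_eq_toFinset_card']

/-- the average kissing number of a packing in dimension eight is at most 240 -/
theorem avg_le {N : ℕ} (P : Packing 8 N) : P.avg ≤ 240 := by
  classical
  have h := sum_degree_le P
  rw [SimpleGraph.sum_degrees_eq_twice_card_edges, ← ncard_edges] at h
  push_cast at h
  unfold Packing.avg
  rcases Nat.eq_zero_or_pos N with hN | hN
  · subst hN; simp
  · rw [div_le_iff₀ (by exact_mod_cast hN)]
    exact h

lemma ereal240 : (240 : EReal) = ((240 : ℝ) : EReal) := rfl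

theorem kappa_le : kappa 8 ≤ 240 := by
  unfold kappa
  refine iSup_le fun N => iSup_le fun _ => iSup_le fun P => ?_
  rw [ereal240]
  exact EReal.coe_le_coe_iff.2 (avg_le P)

/-- at most 240 unit balls touch a unit ball in dimension eight -/
theorem kiss_le {m : ℕ} (hm : m ∈ kissSet 8) : m ≤ 240 := by
  obtain ⟨c, h1, h2⟩ := hm
  have h := local_pack (Finset.univ : Finset (Fin m)) 0 1 one_pos c (fun _ => 1)
    (fun _ _ => one_pos) (fun j _ => by rw [dist_comm, h1]; norm_num)
    (fun j _ l _ hjl => (disj_iff _ _ one_pos one_pos).1 (h2 j l hjl))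
  have e : wgt (1 / (1 + 1)) = 1 := by unfold wgt; norm_num
  rw [e] at h
  simp only [Finset.sum_const, Finset.card_univ, Fintype.card_fin, nsmul_eq_mul, mul_one] at h
  exact_mod_cast h

end Pool.Agent.J6H87.AKN
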